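import Pool.Agent.Lib.Pf91712p.Cls
import Pool.Agent.Lib.Pf91712.Defs
import Pool.Agent.Lib.Pa76659G.Defs

/-!
The list gap version of the parameterized `Σ₂` problem, `#W[P]` and fpt Turing reductions (polynomial
time after a computable precomputation on the parameter), and the functions used by the algorithm.
-/

set_option autoImplicit false

namespace Pool.Agent.Lib.Pf91712q

open Pool.Agent.Lib.Pa76659 (Str Lang Prog PO Halts accepts inp)
open Pool.Agent.Lib.Pa76659G (pr on1 fst snd)
open Pool.Agent.Lib.Pf91712 (bitsOf)
open Pool.Agent.Lib.Pf91712p (lg)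

/-- `#W[P]` relative to the oracle `O`: the number of the guesses of `h k * ⌊log₂ |x|⌋` bits which
are accepted by a predicate in `P` relative to `O`, applied to the instance `x`, the advice `π k` and
the guess. -/
def SharpWP (O : Lang) : Set (Str → ℕ → ℕ) :=
  {F | ∃ (h : ℕ → ℕ) (π : ℕ → Str) (B : Lang), Computable h ∧ Computable π ∧ B ∈ PO O ∧
    ∀ x k, F x k = Nat.card {z : Str // z.length = h k * lg x ∧ B (pr x (pr (π k) z)) = true}}

/-- The promise problem with the yes-instances `Y` and the no-instances `N` is fpt Turing reducible
to the parameterized counting problem `F`: on the instance `x` and the advice `σ k` a program which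
runs in polynomial time accepts if `Y x k` and rejects if `N x k`. The program asks for binary digits
of values of `F` at instances with parameter at most `g k`. -/
def FptTuring (F : Str → ℕ → ℕ) (Y N : Str → ℕ → Prop) : Prop :=
  ∃ (M : Prog) (p : Polynomial ℕ) (g : ℕ → ℕ) (σ : ℕ → Str), Computable g ∧ Computable σ ∧
    ∀ x k,
      Halts (bitsOf F (g k)) M (inp (pr x (σ k))) (p.eval (pr x (σ k)).length) ∧
      (Y x k →
        accepts (bitsOf F (g k)) M (inp (pr x (σ k))) (p.eval (pr x (σ k)).length) = true) ∧
      (N x k →
        accepts (bitsOf F (g k)) M (inp (pr x (σ k))) (p.eval (pr x (σ k)).length) = false)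

/-- The yes-instances: some string `u` passes all the tests `v`, that is `B (x, π k, u v) = 1` for all
`v`; here `u` and `v` have `h k * ⌊log₂ |x|⌋` bits. -/
def YesInst (h : ℕ → ℕ) (π : ℕ → Str) (B : Lang) (x : Str) (k : ℕ) : Prop :=
  ∃ u : Str, u.length = h k * lg x ∧ ∀ v : Str, v.length = h k * lg x →
    B (pr x (pr (π k) (u ++ v))) = true

/-- The no-instances: for every list of `t k` strings `u` there is one test `v` which all strings of
the list fail. -/
def NoInst (t h : ℕ → ℕ) (π : ℕ → Str) (B : Lang) (x : Str) (k : ℕ) : Prop :=
  ∀ us : List Str, us.length = t k → (∀ u ∈ us, u.length = h k * lg x) →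
    ∃ v : Str, v.length = h k * lg x ∧ ∀ u ∈ us, B (pr x (pr (π k) (u ++ v))) = false

/-- All list gap problems with the block length function `h` and the list size `t` are fpt Turing
reducible to `#W[P]`, relative to `O`: for all matrices `B` in `P` and all computable advice `π`, the
yes-instances can be separated from the no-instances. -/
def ListGap (O : Lang) (h t : ℕ → ℕ) : Prop :=
  ∀ (π : ℕ → Str) (B : Lang), Computable π → B ∈ PO O →
    ∃ F ∈ SharpWP O, FptTuring F (YesInst h π B) (NoInst t h π B)

/-- Every problem with two quantifier blocks and a matrix in `P` (these contain `A[2]`) is fpt Turing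
reducible to a function in `#W[P]`, relative to `O`. -/
def LevelTwo (O : Lang) : Prop :=
  ∀ L ∈ Pool.Agent.Lib.Pf91712p.AltClass O 2, ∃ F ∈ SharpWP O, FptTuring F L (fun x k => ¬ L x k)

/-! ### The functions of the algorithm -/

/-- all bits are `false` -/
def allF (s : Str) : Bool := decide (∀ i < s.length, (!s.getD i false) = true)

/-- `u` passes all the complete tests in `z`; the tests are blocks of `m + 1` bits, the last bit of a
block is ignored -/
def inY (A : Str → Str → Bool) (m : ℕ) (z u : Str) : Bool :=
  decide (∀ i < z.length / (m + 1), A u ((z.drop (i * (m + 1))).take m) = true)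

/-- `r` consists of `t` blocks of `m` bits with the property `C`, followed by zeros -/
def blkOK (C : Str → Bool) (m t : ℕ) (r : Str) : Bool :=
  decide (∀ j < t, C ((r.drop (j * m)).take m) = true) && allF (r.drop (t * m))

/-- the incomplete last test in `z` -/
def lastP (m : ℕ) (z : Str) : Str := z.drop (z.length / (m + 1) * (m + 1))

/-- `r` is a test which extends the incomplete last test of `z` and the bit `b`, followed by `t`
strings which pass the tests in `z` and fail the new test, followed by zeros -/
def tst (A : Str → Str → Bool) (m t : ℕ) (z : Str) (b : Bool) (r : Str) : Bool :=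
  decide (r.take ((lastP m z).length + 1) = lastP m z ++ [b]) &&
    blkOK (fun u => inY A m z u && !(A u (r.take m))) m t (r.drop (m + 1))

/-- the number of the strings which pass the tests in `z` and fail the test `v` -/
noncomputable def cK (A : Str → Str → Bool) (m : ℕ) (z v : Str) : ℕ :=
  Nat.card {u : Str // u.length = m ∧ (inY A m z u && !(A u (v.take m))) = true}

/-- the number of the strings which pass the tests in `z` -/
noncomputable def cY (A : Str → Str → Bool) (m : ℕ) (z : Str) : ℕ :=
  Nat.card {u : Str // u.length = m ∧ inY A m z u = true}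

/-- the strings of length `n` -/
def bsl (n : ℕ) : Finset Str := (Finset.univ : Finset (List.Vector Bool n)).image (fun v => v.1)

/-- the sum of the `t`-th powers of `cK` over the tests with the given beginning `p` -/
noncomputable def SS (A : Str → Str → Bool) (m t : ℕ) (z p : Str) : ℕ :=
  ∑ v ∈ bsl (m + 1), if v.take p.length = p then cK A m z v ^ t else 0

/-- the next bit -/
noncomputable def ans (A : Str → Str → Bool) (m t : ℕ) (z : Str) : Bool :=
  decide (SS A m t z (lastP m z ++ [false]) ≤ SS A m t z (lastP m z ++ [true]))

/-! ### The counting problem -/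

/-- the predicate which is counted, with the mode `md` and the list `z` of tests -/
def Psi (A : Str → Str → Bool) (m t : ℕ) (md : Bool) (z g : Str) : Bool :=
  if md then
    (if g.headD false then !(allF g.tail) else blkOK (inY A m z) m 1 g.tail)
  else
    (if g.headD false then !(tst A m t z false g.tail) else tst A m t z true g.tail)

/-- the advice for the counting problem -/
def advF (t h : ℕ → ℕ) (π : ℕ → Str) (k : ℕ) : Str := pr (pr (π k) (on1 (h k))) (on1 (t k))

/-- the number of guessed blocks of `log` bits -/
def hF (t h : ℕ → ℕ) (k : ℕ) : ℕ := (t k + 1) * h k + 3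

/-- the relation of the instance -/
def relA (B : Lang) (x a : Str) (u v : Str) : Bool := B (pr x (pr a (u ++ v)))

/-- the matrix of the counting problem: the input is `pr y (pr P g)` with the instance
`y = pr x (md :: z)`, the advice `P` and the guess `g` -/
def BF (B : Lang) (w : Str) : Bool :=
  Psi (relA B (fst (fst w)) (fst (fst (fst (snd w)))))
    ((snd (fst (fst (snd w)))).length * lg (fst (fst w)))
    (snd (fst (snd w))).length ((snd (fst w)).headD false) (snd (fst w)).tail (snd (snd w))

/-- the counting problem -/
noncomputable def FF (t h : ℕ → ℕ) (π : ℕ → Str) (B : Lang) (y : Str) (k : ℕ) : ℕ :=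
  Nat.card {g : Str // g.length = hF t h k * lg y ∧ BF B (pr y (pr (advF t h π k) g)) = true}

/-- the query about the instance `pr x (md :: z)` -/
def qF (t h : ℕ → ℕ) (x : Str) (k : ℕ) (md : Bool) (z : Str) : Str :=
  on1 k ++ false :: (on1 (hF t h k * lg (pr x (md :: z)) - 1) ++ false :: pr x (md :: z))

end Pool.Agent.Lib.Pf91712q
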