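import Pool.Agent.Lib.Pa76659G.Mem
import Pool.Agent.Lib.Pa76659G.Bridge
import Pool.Agent.Lib.Pf91712q.Defs

/-!
Unary arithmetic with a variable oracle; the matrix of the counting problem is in `P`.
-/

set_option autoImplicit false

namespace Pool.Agent.Lib.Pf91712q

open Pool.Agent.Lib.Pa76659 (Str Lang PO)
open Pool.Agent.Lib.Pa76659G (pr on1 fst snd)
open Pool.Agent.Lib.Pa76659G.PC
open Pool.Agent.Lib.Pf91712p (lg)

variable {α : Type*} {orc : α → Lang} {D : α → Prop} {ctx : List (α → Str)}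

theorem filter_lt (b : ℕ) : ∀ N : ℕ, b ≤ N →
    ((List.range N).filter (fun i => decide (i < b))).length = b
  | 0, h => by
    have : b = 0 := by omega
    subst this
    rfl
  | N + 1, h => by
    rw [List.range_succ, List.filter_append, List.length_append]
    by_cases h1 : b ≤ N
    · rw [filter_lt b N h1]
      have : decide (N < b) = false := by rw [decide_eq_false_iff_not]; omega
      simp [this]
    · have h2 : b = N + 1 := by omega
      subst h2
      rw [List.filter_eq_self.2]
      · simp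
      · intro i hi
        rw [List.mem_range] at hi
        rw [decide_eq_true_eq]
        omega

/-- weakening to one more number -/
theorem up {t : α → Str} (h : PolyC orc D ctx t) {n : α → ℕ} :
    PolyC (fun p : α × ℕ => orc p.1) (fun p => D p.1 ∧ p.2 < n p.1)
      (lift ctx ++ [fun p => una p.2]) (fun p => t p.1) :=
  (PolyC.lift h (fun _ hp => hp.1)).weakenRight _

theorem upN {f : α → ℕ} (h : PolyN orc D ctx f) {n : α → ℕ} :
    PolyN (fun p : α × ℕ => orc p.1) (fun p => D p.1 ∧ p.2 < n p.1)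
      (lift ctx ++ [fun p => una p.2]) (fun p => f p.1) := up h

theorem idx {n : α → ℕ} :
    PolyN (fun p : α × ℕ => orc p.1) (fun p => D p.1 ∧ p.2 < n p.1)
      (lift ctx ++ [fun p => una p.2]) (fun p => p.2) := PolyC.var (by simp)

theorem div_poly {f d : α → ℕ} (hf : PolyN orc D ctx f) (hd : PolyN orc D ctx d)
    (hd1 : ∀ a, D a → 1 ≤ d a) : PolyN orc D ctx (fun a => f a / d a) := by
  have h1 := PolyN.count (n := f)
    (φ := fun p : α × ℕ => decide ((p.2 + 1) * d p.1 ≤ f p.1)) hf
    (PolyB.le ((PolyN.succ idx).mul (up hd)) (up hf))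
  refine h1.congr (fun a ha => ?_)
  rw [← filter_lt (f a / d a) (f a) (Nat.div_le_self _ _)]
  congr 1
  refine List.filter_congr (fun i _ => ?_)
  rw [Bool.eq_iff_iff, decide_eq_true_eq, decide_eq_true_eq]
  show (i + 1) * d a ≤ f a ↔ i < f a / d a
  rw [Nat.lt_iff_add_one_le, Nat.le_div_iff_mul_le (hd1 a ha)]

theorem half_poly {f : α → ℕ} (hf : PolyN orc D ctx f) :
    PolyN orc D ctx (fun a => f a / 2) := div_poly hf (PolyN.const 2) (fun _ _ => by norm_num)

theorem div2_poly {f j : α → ℕ} (hf : PolyN orc D ctx f) (hj : PolyN orc D ctx j) :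
    PolyN orc D ctx (fun a => f a / 2 ^ j a) := by
  obtain ⟨pf, hpf⟩ := PolyC.length_le hf
  refine PolyC.natRec (fun a k => una (f a / 2 ^ k)) hj (hf.congr (fun a _ => by simp)) ?_
    ⟨pf, fun a ha k _ => ?_⟩
  · have h1 : PolyN (fun p : α × ℕ => orc p.1) (fun p => D p.1 ∧ p.2 < j p.1)
        (lift ctx ++ [fun p => una p.2, fun p => una (f p.1 / 2 ^ p.2)])
        (fun p => f p.1 / 2 ^ p.2) := PolyC.var (by simp)
    refine PolyC.congr (half_poly h1) (fun p _ => ?_)
    show una (f p.1 / 2 ^ p.2 / 2) = una (f p.1 / 2 ^ (p.2 + 1))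
    rw [Nat.div_div_eq_div_mul, pow_succ]
  · have h2 := hpf a ha
    rw [un_length] at h2 ⊢
    exact (Nat.div_le_self _ _).trans h2

theorem log_poly {f : α → ℕ} (hf : PolyN orc D ctx f) :
    PolyN orc D ctx (fun a => Nat.log 2 (f a)) := by
  have h1 := PolyN.count (n := f) (φ := fun p : α × ℕ => decide (1 ≤ f p.1 / 2 ^ (p.2 + 1))) hf
    (PolyB.le (PolyN.const 1) (div2_poly (up hf) (PolyN.succ idx)))
  refine h1.congr (fun a _ => ?_)
  rw [← filter_lt (Nat.log 2 (f a)) (f a) (Nat.log_le_self 2 (f a))]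
  congr 1
  refine List.filter_congr (fun i _ => ?_)
  rw [Bool.eq_iff_iff, decide_eq_true_eq, decide_eq_true_eq]
  by_cases h0 : f a = 0
  · rw [h0]
    simp
  · rw [Nat.lt_iff_add_one_le, Nat.le_log_iff_pow_le (by norm_num) h0,
      Nat.le_div_iff_mul_le (Nat.two_pow_pos _), one_mul]

theorem lg_poly {t : α → Str} (ht : PolyC orc D ctx t) : PolyN orc D ctx (fun a => lg (t a)) :=
  log_poly (PolyN.length ht)

theorem allF_poly {s : α → Str} (hs : PolyC orc D ctx s) :
    PolyB orc D ctx (fun a => allF (s a)) :=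
  PolyB.forall_lt (φ := fun p : α × ℕ => !(s p.1).getD p.2 false) (PolyN.length hs)
    (PolyB.not (PolyB.getD (up (n := fun a => (s a).length) hs) (PolyC.var (by simp))))

theorem lastP_poly {m : α → ℕ} {z : α → Str} (hm : PolyN orc D ctx m) (hz : PolyC orc D ctx z) :
    PolyC orc D ctx (fun a => lastP (m a) (z a)) :=
  PolyC.drop hz ((div_poly (PolyN.length hz) hm.succ (fun _ _ => by omega)).mul hm.succ)

theorem blk_poly {C : α → Str → Bool} {m t : α → ℕ} {r : α → Str} (hm : PolyN orc D ctx m)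
    (ht : PolyN orc D ctx t) (hr : PolyC orc D ctx r)
    (hC : PolyB (fun p : α × ℕ => orc p.1) (fun p => D p.1 ∧ p.2 < t p.1)
      (lift ctx ++ [fun p => una p.2])
      (fun p => C p.1 (((r p.1).drop (p.2 * m p.1)).take (m p.1)))) :
    PolyB orc D ctx (fun a => blkOK (C a) (m a) (t a) (r a)) :=
  (PolyB.forall_lt ht hC).and (allF_poly (PolyC.drop hr (ht.mul hm)))

section

variable {O : Lang} {B : Lang}

theorem rel_poly (hB : B ∈ PO O) {x a u v : α → Str} (hx : PolyC (fun _ => O) D ctx x)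
    (ha : PolyC (fun _ => O) D ctx a) (hu : PolyC (fun _ => O) D ctx u)
    (hv : PolyC (fun _ => O) D ctx v) :
    PolyB (fun _ => O) D ctx (fun p => relA B (x p) (a p) (u p) (v p)) :=
  polyB_of_PO hB (PolyC.pr hx (PolyC.pr ha (PolyC.append hu hv)))

theorem inY_poly (hB : B ∈ PO O) {x a z u : α → Str} {m : α → ℕ}
    (hx : PolyC (fun _ => O) D ctx x) (ha : PolyC (fun _ => O) D ctx a)
    (hm : PolyN (fun _ => O) D ctx m) (hz : PolyC (fun _ => O) D ctx z)
    (hu : PolyC (fun _ => O) D ctx u) :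
    PolyB (fun _ => O) D ctx (fun p => inY (relA B (x p) (a p)) (m p) (z p) (u p)) :=
  PolyB.forall_lt
    (φ := fun p : α × ℕ => relA B (x p.1) (a p.1) (u p.1)
      (((z p.1).drop (p.2 * (m p.1 + 1))).take (m p.1)))
    (div_poly (PolyN.length hz) hm.succ (fun _ _ => by omega))
    (rel_poly hB (up (n := fun a => (z a).length / (m a + 1)) hx)
      (up (n := fun a => (z a).length / (m a + 1)) ha)
      (up (n := fun a => (z a).length / (m a + 1)) hu)
      (PolyC.take (PolyC.drop (up (n := fun a => (z a).length / (m a + 1)) hz)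
        (PolyN.mul (idx (orc := fun _ : α => O) (D := D) (ctx := ctx) (n := fun a => (z a).length / (m a + 1)))
          (PolyN.succ (upN (n := fun a => (z a).length / (m a + 1)) hm))))
          (upN (n := fun a => (z a).length / (m a + 1)) hm)))

theorem tst_poly (hB : B ∈ PO O) {x a z r : α → Str} {m t : α → ℕ} (b : Bool)
    (hx : PolyC (fun _ => O) D ctx x) (ha : PolyC (fun _ => O) D ctx a)
    (hm : PolyN (fun _ => O) D ctx m) (ht : PolyN (fun _ => O) D ctx t)
    (hz : PolyC (fun _ => O) D ctx z) (hr : PolyC (fun _ => O) D ctx r) :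
    PolyB (fun _ => O) D ctx (fun p => tst (relA B (x p) (a p)) (m p) (t p) (z p) b (r p)) := by
  have h1 := PolyB.strEq (PolyC.take hr (PolyN.succ (PolyN.length (lastP_poly hm hz))))
    (PolyC.append (lastP_poly hm hz) (PolyC.const [b]))
  have h2 := blk_poly (C := fun p u => inY (relA B (x p) (a p)) (m p) (z p) u &&
      !(relA B (x p) (a p) u ((r p).take (m p)))) hm ht (PolyC.drop hr hm.succ) (by
    have hu := PolyC.take (PolyC.drop (up (n := t) (PolyC.drop hr hm.succ))
      (PolyN.mul (idx (orc := fun _ : α => O) (D := D) (ctx := ctx) (n := t)) (upN (n := t) hm))) (upN (n := t) hm)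
    exact (inY_poly hB (up hx) (up ha) (upN hm) (up hz) hu).and
      (PolyB.not (rel_poly hB (up hx) (up ha) hu (PolyC.take (up hr) (upN hm)))))
  exact h1.and h2

theorem Psi_poly (hB : B ∈ PO O) {x a z g : α → Str} {m t : α → ℕ} {md : α → Bool}
    (hx : PolyC (fun _ => O) D ctx x) (ha : PolyC (fun _ => O) D ctx a)
    (hm : PolyN (fun _ => O) D ctx m) (ht : PolyN (fun _ => O) D ctx t)
    (hmd : PolyB (fun _ => O) D ctx md)
    (hz : PolyC (fun _ => O) D ctx z) (hg : PolyC (fun _ => O) D ctx g) :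
    PolyB (fun _ => O) D ctx (fun p => Psi (relA B (x p) (a p)) (m p) (t p) (md p) (z p) (g p)) := by
  have hb := PolyB.headD hg
  have hr := PolyC.tail hg
  have h1 := PolyB.not (allF_poly hr)
  have h2 := blk_poly (C := fun p u => inY (relA B (x p) (a p)) (m p) (z p) u) (t := fun _ => 1) hm
    (PolyN.const 1) hr (by
    have hu := PolyC.take (PolyC.drop (up (n := fun _ => 1) hr)
      (PolyN.mul (idx (orc := fun _ : α => O) (D := D) (ctx := ctx) (n := fun _ => 1)) (upN (n := fun _ => 1) hm))) (upN (n := fun _ => 1) hm)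
    exact inY_poly hB (up (n := fun _ => 1) hx) (up (n := fun _ => 1) ha)
      (upN (n := fun _ => 1) hm) (up (n := fun _ => 1) hz) hu)
  have h3 := PolyB.not (tst_poly hB false hx ha hm ht hz hr)
  have h4 := tst_poly hB true hx ha hm ht hz hr
  have h5 := PolyB.ite hb (PolyC.mono h1 fun _ h => h.1) (PolyC.mono h2 fun _ h => h.1)
  have h6 := PolyB.ite hb (PolyC.mono h3 fun _ h => h.1) (PolyC.mono h4 fun _ h => h.1)
  exact PolyB.ite hmd (PolyC.mono h5 fun _ h => h.1) (PolyC.mono h6 fun _ h => h.1)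

/-- The matrix of the counting problem is in `P`. -/
theorem BF_mem (hB : B ∈ PO O) : BF B ∈ PO O := by
  refine mem_PO ?_
  have hw : PolyC (fun _ : Str => O) (fun _ => True) [fun x => x] (fun w => w) :=
    PolyC.var (by simp)
  have hx := PolyC.fst (PolyC.fst hw)
  have hmz := PolyC.snd (PolyC.fst hw)
  have hP := PolyC.fst (PolyC.snd hw)
  have hg := PolyC.snd (PolyC.snd hw)
  exact Psi_poly hB hx (PolyC.fst (PolyC.fst hP)) ((PolyN.length (PolyC.snd (PolyC.fst hP))).mul
    (lg_poly hx)) (PolyN.length (PolyC.snd hP)) (PolyB.headD hmz) (PolyC.tail hmz) hg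

end

end Pool.Agent.Lib.Pf91712q
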