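import Pool.Agent.Lib.Pf91712q.Prg

/-!
Hard-wiring the advice: for every value of the parameter a program with a time bound whose exponent does
not depend on the parameter.

PLAN. `h` gives a program `P` and a polynomial `p` with
`Run (orc a) P (R [a.1, adv a.2]) (R [a.1, adv a.2, [L a]]) n`, `n ≤ p.eval (|a.1| + |adv a.2|)`. The
program for `k`: clear register 1 (it contains `1^k`; `inp3 x k [] = R [x, on1 k]`), push the bits of
`adv k` on register 1 (a sequence of `Prog.push 1 b`, in reverse order; recursion on the list), run `P`,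
clear register 0, move register 2 to register 0 (`run_clear`, `run_move`, see the proof of `machine` in
Prg.lean and of `mem_PO2` in Pa76659G/Bridge.lean). The time is at most
`p.eval (|x| + |adv k|) + 2 * |x| + ... ≤ a k * (|x| + 1) ^ c` (for a polynomial `q` there are `b, c` with
`q.eval n ≤ b * (n + 1) ^ c`, and `|x| + A + 1 ≤ (A + 1) * (|x| + 1)`).
-/

set_option autoImplicit false

namespace Pool.Agent.Lib.Pf91712q

open Pool.Agent.Lib.Pa76659 (Str Lang PO Prog Halts accepts inp)
open Pool.Agent.Lib.Pa76659G (pr on1 fst snd)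
open Pool.Agent.Lib.Pa76659G.PC
open Pool.Agent.Lib.Pf91712 (inp3)
open Pool.Agent.Lib.Pf91712p (lg)

/-- push a string on a register -/
def pushL (r : ℕ) : Str → Prog
  | [] => .skip
  | b :: l => .seq (pushL r l) (.push r b)

theorem run_pushL {O : Lang} (r : ℕ) (l : Str) (S : Regs) :
    Run O (pushL r l) S (Function.update S r (l ++ S r)) (2 * l.length + 1) := by
  induction l with
  | nil =>
    have e : Function.update S r ([] ++ S r) = S := by simp
    rw [e]
    exact Run.skip S
  | cons b l ih =>
    have h2 := Run.push (O := O) (Function.update S r (l ++ S r)) r b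
    rw [Function.update_self, Function.update_idem] at h2
    exact (Run.seq ih h2).cast rfl (by simp only [List.length_cons]; omega)

theorem poly_le_pow (p : Polynomial ℕ) : ∃ b c : ℕ, ∀ n : ℕ, p.eval n ≤ b * (n + 1) ^ c := by
  refine ⟨∑ i ∈ Finset.range (p.natDegree + 1), p.coeff i, p.natDegree, fun n => ?_⟩
  rw [Polynomial.eval_eq_sum_range, Finset.sum_mul]
  apply Finset.sum_le_sum
  intro i hi
  apply Nat.mul_le_mul_left
  calc n ^ i ≤ (n + 1) ^ i := Nat.pow_le_pow_left (by omega) _
    _ ≤ (n + 1) ^ p.natDegree :=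
      Nat.pow_le_pow_right (by omega) (by have := Finset.mem_range.1 hi; omega)

theorem machine2 {orc : Str × ℕ → Lang} {adv : ℕ → Str} {L : Str × ℕ → Bool}
    (h : PolyB orc (fun _ => True) [fun a => a.1, fun a => adv a.2] L) :
    ∃ c : ℕ, ∀ k : ℕ, ∃ (M : Prog) (b : ℕ), ∀ x : Str,
      Halts (orc (x, k)) M (inp3 x k []) (b * (x.length + 1) ^ c) ∧
      accepts (orc (x, k)) M (inp3 x k []) (b * (x.length + 1) ^ c) = L (x, k) := by
  obtain ⟨P, p, hP⟩ := h
  obtain ⟨b0, c0, hbc⟩ := poly_le_pow p
  refine ⟨c0 + 1, fun k => ?_⟩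
  refine ⟨.seq (clear 1) (.seq (pushL 1 (adv k)) (.seq P (.seq (clear 0) (move 2 0 3)))),
    b0 * ((adv k).length + 1) ^ c0 + (2 * k + 2 * (adv k).length + 25), fun x => ?_⟩
  obtain ⟨n, hn, hr⟩ := hP (x, k) trivial
  simp only [vals_cons, vals_nil, total_cons, total_nil, Nat.add_zero, List.cons_append,
    List.nil_append] at hn hr
  set v := [L (x, k)] with hv
  -- clear register 1
  have h1 := run_clear (O := orc (x, k)) 1 (R [x, List.replicate k true])
  have e1 : Function.update (R [x, List.replicate k true]) 1 [] = R [x, []] :=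
    R_update [x] (List.replicate k true) [] []
  have e2 : R [x, List.replicate k true] 1 = List.replicate k true :=
    R_length [x] (List.replicate k true) []
  rw [e1, e2, List.length_replicate] at h1
  -- push the advice
  have h2 := run_pushL (O := orc (x, k)) 1 (adv k) (R [x, []])
  have e3 : R [x, []] 1 = [] := R_length [x] [] []
  have e4 : Function.update (R [x, []]) 1 (adv k) = R [x, adv k] := R_update [x] [] (adv k) []
  rw [e3, List.append_nil, e4] at h2
  -- clear register 0, move the result
  have h3 := run_clear (O := orc (x, k)) 0 (R [x, adv k, v])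
  have e5 : Function.update (R [x, adv k, v]) 0 [] = R [[], adv k, v] :=
    R_update [] x [] [adv k, v]
  have e6 : R [x, adv k, v] 0 = x := R_length [] x [adv k, v]
  rw [e5, e6] at h3
  have h4 := run_move (O := orc (x, k)) (r := 2) (s := 0) (tmp := 3) (by omega) (by omega)
    (by omega) (R [[], adv k, v]) (by rw [R_of_ge]; simp)
  have e7 : R [[], adv k, v] 2 = v := R_length [[], adv k] v []
  have e8 : R [[], adv k, v] 0 = [] := R_length [] [] [adv k, v]
  have e9 : Function.update (R [[], adv k, v]) 2 [] = R [[], adv k, []] :=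
    R_update [[], adv k] v [] []
  have e10 : Function.update (R [[], adv k, []]) 0 v = R [v, adv k, []] :=
    R_update [] [] v [adv k, []]
  rw [e7, e8, e9, List.append_nil, e10] at h4
  have h5 := (Run.seq h1 (Run.seq h2 (Run.seq hr (Run.seq h3 h4)))).exec
  have e11 : R [x, List.replicate k true] = inp3 x k [] := by
    funext i
    rcases i with _ | _ | i
    · simp [R, inp3]
    · simp [R, inp3]
    · by_cases hi : i = 0
      · subst hi; simp [R, inp3]
      · simp [R, inp3]
  rw [e11] at h5
  have hlen : v.length = 1 := by rw [hv]; rfl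
  have h6 := h5.halts (N := (b0 * ((adv k).length + 1) ^ c0 + (2 * k + 2 * (adv k).length + 25)) *
      (x.length + 1) ^ (c0 + 1)) (by
    rw [hlen]
    have f1 : p.eval (x.length + (adv k).length) ≤
        b0 * ((adv k).length + 1) ^ c0 * (x.length + 1) ^ c0 := by
      refine (hbc _).trans ?_
      rw [mul_assoc, ← mul_pow]
      apply Nat.mul_le_mul_left
      apply Nat.pow_le_pow_left
      nlinarith [Nat.zero_le (x.length * (adv k).length)]
    have f2 : (x.length + 1) ^ c0 ≤ (x.length + 1) ^ (c0 + 1) :=
      Nat.pow_le_pow_right (by omega) (by omega)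
    have f3 : x.length + 1 ≤ (x.length + 1) ^ (c0 + 1) := by
      calc x.length + 1 = (x.length + 1) ^ 1 := (pow_one _).symm
        _ ≤ _ := Nat.pow_le_pow_right (by omega) (by omega)
    have f4 : b0 * ((adv k).length + 1) ^ c0 * (x.length + 1) ^ c0 ≤
        b0 * ((adv k).length + 1) ^ c0 * (x.length + 1) ^ (c0 + 1) := Nat.mul_le_mul_left _ f2
    have f5 : (2 * k + 2 * (adv k).length + 25) * (x.length + 1) ≤
        (2 * k + 2 * (adv k).length + 25) * (x.length + 1) ^ (c0 + 1) := Nat.mul_le_mul_left _ f3
    have f6 : 2 * k + 2 * (adv k).length + 25 + 25 * x.length ≤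
        (2 * k + 2 * (adv k).length + 25) * (x.length + 1) := by
      nlinarith [Nat.zero_le (k * x.length), Nat.zero_le ((adv k).length * x.length)]
    rw [add_mul]
    omega)
  refine ⟨h6.1, ?_⟩
  rw [h6.2]
  have e12 : R [v, adv k, []] 0 = v := R_length [] v [adv k, []]
  rw [e12, hv]
  cases L (x, k) <;> rfl

end Pool.Agent.Lib.Pf91712q
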