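import Pool.Agent.Lib.Pf91712q.BarA
import Pool.Agent.Lib.Pf91712q.BarB
import Pool.Agent.Lib.Pf91712p.PosA

/-!
The barrier for the classes of `Defs.lean`, derived from the barrier of `Pool.Agent.Lib.Pf91712.Diag`.
-/

set_option autoImplicit false

namespace Pool.Agent.Lib.Pf91712q

open Pool.Agent.Lib.Pa76659 (Str Lang PO Prog Halts accepts inp join)
open Pool.Agent.Lib.Pa76659G (pr on1 fst snd)
open Pool.Agent.Lib.Pa76659G.PC
open Pool.Agent.Lib.Pf91712 (bitsOf inp3 unary code SigmaTwo)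
open Pool.Agent.Lib.Pf91712p (lg Alt AltProb AltClass)

theorem unary_eq (w : Str) : unary w = ((w.takeWhile id).length, afterTrue w) := by
  induction w with
  | nil => rfl
  | cons b w ih =>
    cases b with
    | false => rfl
    | true =>
      rw [unary, ih]
      simp [afterTrue]

theorem unary_una (j : ℕ) (v : Str) : unary (una j ++ false :: v) = (j, v) := by
  rw [unary_eq, takeWhile_un, afterTrue_un, un_length]

/-- the advice strings `π 0, ..., π g`, coded -/
def tabS (g : ℕ) (π : ℕ → Str) : Str := lenc ((List.range (g + 1)).map π)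

theorem nth_tab (g : ℕ) (π : ℕ → Str) (k : ℕ) (hk : k ≤ g) : nth (tabS g π) k = π k := by
  rw [tabS, nth_lenc, List.getD_eq_getElem _ _ (by simp; omega)]
  simp

/-- the query to the universal function -/
def uq (P1 P2 w : Str) : Str :=
  true :: (una (unary w).1 ++ false :: (una (unary (unary w).2).1 ++ false ::
    pr (unary (unary w).2).2 (pr (nth P1 (unary w).1) (nth P2 (unary w).1))))

theorem uq_eq (O B : Lang) (F : Str → ℕ → ℕ) (h : ℕ → ℕ) (π : ℕ → Str)
    (hF : ∀ x k, F x k =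
      Nat.card {z : Str // z.length = h k * lg x ∧ B (pr x (pr (π k) z)) = true}) (g : ℕ) (w : Str) :
    join O (bitsOf (Funi h B) g) (uq (tabS g π) (tabS g (fun k => on1 (h k))) w) = bitsOf F g w := by
  rw [uq]
  show bitsOf (Funi h B) g _ = _
  rw [bitsOf, unary_una, unary_una, bitsOf]
  by_cases hk : (unary w).1 ≤ g
  · simp only [hk, decide_true, Bool.true_and]
    rw [nth_tab _ _ _ hk, nth_tab _ _ _ hk, Funi_eq, hF]
  · simp only [hk, decide_false, Bool.false_and]

theorem unary_poly {α : Type*} {orc : α → Lang} {D : α → Prop} {ctx : List (α → Str)}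
    {t : α → Str} (ht : PolyC orc D ctx t) :
    PolyN orc D ctx (fun a => (unary (t a)).1) ∧ PolyC orc D ctx (fun a => (unary (t a)).2) := by
  constructor
  · exact (PolyN.length (PolyC.takeTrue ht)).congr (fun a _ => by rw [unary_eq])
  · exact (PolyC.afterTrue ht).congr (fun a _ => by rw [unary_eq])

theorem uq_poly {α : Type*} {orc : α → Lang} {D : α → Prop} {ctx : List (α → Str)}
    {P1 P2 w : α → Str} (h1 : PolyC orc D ctx P1) (h2 : PolyC orc D ctx P2)
    (hw : PolyC orc D ctx w) : PolyC orc D ctx (fun a => uq (P1 a) (P2 a) (w a)) := by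
  obtain ⟨a1, a2⟩ := unary_poly hw
  obtain ⟨b1, b2⟩ := unary_poly a2
  exact PolyC.cons true (PolyC.append a1 (PolyC.cons false (PolyC.append b1 (PolyC.cons false
    (PolyC.pr b2 (PolyC.pr (PolyC.nth h1 a1) (PolyC.nth h2 a1)))))))

theorem barrier (O : Lang) (hO : ∀ F ∈ Pool.Agent.Lib.Pf91712.SharpWP O, ∀ c : ℕ, ∃ K : ℕ,
    ∀ k, K ≤ k → ∀ (M : Prog) (a g : ℕ), ¬ Pool.Agent.Lib.Pf91712.Solves O F (SigmaTwo O) M a g c k) :
    ¬ ∃ F ∈ SharpWP O, FptTuring F (SigmaTwo O) (fun x k => ¬ SigmaTwo O x k) := by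
  rintro ⟨F, ⟨h1, π1, B1, _, _, hB1, hF⟩, M, p, g, σ, _, _, hM⟩
  let orc : Str × ℕ → Lang := fun a => join O (bitsOf (Funi h1 B1) (g a.2))
  let adv : ℕ → Str := fun k => pr (σ k) (pr (tabS (g k) π1) (tabS (g k) (fun k => on1 (h1 k))))
  let L : Str × ℕ → Bool := fun a => Pool.Agent.Lib.Pa76659.pEval (M, p) (bitsOf F (g a.2))
    (pr a.1 (σ a.2))
  have hx : PolyC orc (fun _ => True) [fun a => a.1, fun a => adv a.2] (fun a => a.1) :=
    PolyC.var (by simp)
  have ha : PolyC orc (fun _ => True) [fun a => a.1, fun a => adv a.2] (fun a => adv a.2) :=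
    PolyC.var (by simp)
  have hs : PolyC orc (fun _ => True) [fun a => a.1, fun a => adv a.2] (fun a => σ a.2) :=
    (PolyC.fst ha).congr (fun a _ => fst_pr _ _)
  have hs2 : PolyC orc (fun _ => True) [fun a => a.1, fun a => adv a.2]
      (fun a : Str × ℕ => pr a.1 (σ a.2)) := PolyC.pr hx hs
  have hw : PolyC (fun p : (Str × ℕ) × Str => orc p.1) (fun _ => True)
    (lift [fun a : Str × ℕ => a.1, fun a => adv a.2] ++ [fun p => p.2]) (fun p => p.2) :=
    PolyC.var (by simp)
  have ha' : PolyC (fun p : (Str × ℕ) × Str => orc p.1) (fun _ => True)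
    (lift [fun a : Str × ℕ => a.1, fun a => adv a.2] ++ [fun p => p.2]) (fun p => adv p.1.2) :=
    (PolyC.lift ha (fun _ _ => trivial)).weakenRight _
  have h1' : PolyC (fun p : (Str × ℕ) × Str => orc p.1) (fun _ => True)
      (lift [fun a : Str × ℕ => a.1, fun a => adv a.2] ++ [fun p => p.2])
      (fun p => tabS (g p.1.2) π1) :=
    (PolyC.fst (PolyC.snd ha')).congr (fun a _ => by
      show fst (snd (pr (σ a.1.2) (pr (tabS (g a.1.2) π1)
        (tabS (g a.1.2) (fun k => on1 (h1 k)))))) = _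
      rw [snd_pr, fst_pr])
  have h2' : PolyC (fun p : (Str × ℕ) × Str => orc p.1) (fun _ => True)
      (lift [fun a : Str × ℕ => a.1, fun a => adv a.2] ++ [fun p => p.2])
      (fun p => tabS (g p.1.2) (fun k => on1 (h1 k))) :=
    (PolyC.snd (PolyC.snd ha')).congr (fun a _ => by
      show snd (snd (pr (σ a.1.2) (pr (tabS (g a.1.2) π1)
        (tabS (g a.1.2) (fun k => on1 (h1 k)))))) = _
      rw [snd_pr, snd_pr])
  have hO' : PolyB (fun p : (Str × ℕ) × Str => orc p.1) (fun _ => True)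
      (lift [fun a : Str × ℕ => a.1, fun a => adv a.2] ++ [fun p => p.2])
      (fun p => bitsOf F (g p.1.2) p.2) := by
    refine PolyC.congr (PolyC.query (uq_poly h1' h2' hw)) (fun a _ => ?_)
    show [join O (bitsOf (Funi h1 B1) (g a.1.2)) _] = _
    rw [uq_eq O B1 F h1 π1 hF]
  have hL : PolyB orc (fun _ => True) [fun a => a.1, fun a => adv a.2] L :=
    PolyB.pEval (α := Str × ℕ) (orc := orc) (D := fun _ => True)
      (ctx := [fun a => a.1, fun a => adv a.2]) (M, p)
      (fun a : Str × ℕ => bitsOf F (g a.2)) (fun a : Str × ℕ => pr a.1 (σ a.2)) hO' hs2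
  obtain ⟨c, hc⟩ := machine2 hL
  obtain ⟨K, hK⟩ := hO (Funi h1 B1) (Funi_mem h1 hB1) c
  obtain ⟨M', b, hM'⟩ := hc K
  refine hK K le_rfl M' b (g K) (fun x => ⟨(hM' x).1, ?_⟩)
  show _ ↔ accepts (orc (x, K)) M' (inp3 x K []) _ = true
  rw [(hM' x).2]
  obtain ⟨-, h2, h3⟩ := hM x K
  constructor
  · intro hy
    exact h2 hy
  · intro hy
    by_contra hn
    have h4 := h3 hn
    have h5 : accepts (bitsOf F (g K)) M (inp (pr x (σ K))) (p.eval (pr x (σ K)).length) = true := hy
    rw [h4] at h5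
    simp at h5

/-- the matrix of `SigmaTwo O` -/
def BS (O : Lang) (w : Str) : Bool :=
  O (una (lg (fst w)) ++ false :: (fst (snd w) ++ false :: snd (snd w)))

theorem sigma_mem (O : Lang) : SigmaTwo O ∈ AltClass O 2 := by
  refine ⟨fun k => k, on1, BS O, Computable.id, Pool.Agent.Lib.Pf91712p.computable_on1, ?_,
    fun x k => ?_⟩
  · refine mem_PO ?_
    have hw : PolyC (fun _ : Str => O) (fun _ => True) [fun x => x] (fun w => w) :=
      PolyC.var (by simp)
    exact PolyB.qry (PolyC.append (lg_poly (PolyC.fst hw)) (PolyC.cons false (PolyC.append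
      (PolyC.fst (PolyC.snd hw)) (PolyC.cons false (PolyC.snd (PolyC.snd hw))))))
  · have e : ∀ u v : Str, BS O (pr x (pr (on1 k) (u ++ v))) = O (code (Nat.log 2 x.length) k u v) := by
      intro u v
      simp [BS, code, on1, una, lg]
    have e2 : AltProb (fun _ => 2) (fun k => k) on1 (BS O) x k ↔
        ∃ u : Str, u.length = k * lg x ∧ ∀ v : Str, v.length = k * lg x →
          BS O (pr x (pr (on1 k) (u ++ v))) = true := Iff.rfl
    rw [e2]
    simp only [e]
    rfl

end Pool.Agent.Lib.Pf91712q
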