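import Pool.Agent.Lib.Pf91712q.Mat

/-!
A universal function of the class `#W[P]` of `Pool.Agent.Lib.Pf91712.Defs`: the advice is part of the
instance.

PLAN. `Funi_mem`: the predicate is `PolyB (fun _ => O) (fun _ => True) [y, una k, z]` over
`α = Str × ℕ × Str` (`allF_poly`, `lg_poly`, `polyB_of_PO`, `PolyC.fst`, `PolyC.snd`, `PolyC.pr`,
`PolyC.take`, `PolyC.drop`, `PolyN.mul`, as in Mat.lean, see `BF_mem`), so there are a program `P` and a
polynomial `p` with `Run O P (R [y, una k, z]) (R [y, una k, z, [b]]) n`, `n ≤ p.eval (total ...)`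
(definition of `PolyC` in Pa76659G.Basic). `R [y, una k, z] = inp3 y k z`. Then clear registers 0 and move
register 3 to register 0 (`run_clear`, `run_move`) as in the proof of `mem_PO` / `mem_PO2`
(Pa76659G/Bridge.lean) or of `machine` below (copy it from there), `Run.exec`, `.halts`. The time is
bounded by a polynomial in `|y| + k + |z|`, `|z| = h k * log |y| ≤ h k * |y|`, hence by
`f k * (|y| + 1) ^ c` with `c` independent of `k` (for a polynomial `q` there are `b, c` with
`q.eval n ≤ b * (n + 1) ^ c`).
`Funi_eq`: `z.length = h k * lg (pr y (pr a (on1 (h k))))`, `lg y ≤ lg (pr y ...)`; the strings `z` which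
are counted are `z' ++ zeros` with `z'.length = h k * lg y` (`Nat.card_congr`).
-/

set_option autoImplicit false

namespace Pool.Agent.Lib.Pf91712q

open Pool.Agent.Lib.Pa76659 (Str Lang PO Prog Halts accepts inp)
open Pool.Agent.Lib.Pa76659G (pr on1 fst snd)
open Pool.Agent.Lib.Pa76659G.PC
open Pool.Agent.Lib.Pf91712p (lg)

/-- the number of the `z` of length `h k * lg y`, `y = pr y₀ (pr a (on1 l))`, which are a string `z'` of
length `l * lg y₀` with `B (pr y₀ (pr a z'))` followed by zeros -/
noncomputable def Funi (h : ℕ → ℕ) (B : Lang) (y : Str) (k : ℕ) : ℕ :=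
  Nat.card {z : Str // z.length = h k * Nat.log 2 y.length ∧
    (allF (z.drop ((snd (snd y)).length * lg (fst y))) &&
      B (pr (fst y) (pr (fst (snd y)) (z.take ((snd (snd y)).length * lg (fst y)))))) = true}

namespace BarAAux

theorem eval_bound (p : Polynomial ℕ) : ∃ b c : ℕ, ∀ n : ℕ, p.eval n ≤ b * (n + 1) ^ c := by
  refine ⟨∑ i ∈ Finset.range (p.natDegree + 1), p.coeff i, p.natDegree, fun n => ?_⟩
  rw [Polynomial.eval_eq_sum_range, Finset.sum_mul]
  refine Finset.sum_le_sum (fun i hi => Nat.mul_le_mul_left _ ?_)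
  rw [Finset.mem_range] at hi
  exact (Nat.pow_le_pow_left (Nat.le_succ n) i).trans
    (Nat.pow_le_pow_right (Nat.succ_pos n) (by omega))

theorem mem3 {O : Lang} {V : Str × ℕ × Str → Bool}
    (h : PolyB (fun _ : Str × ℕ × Str => O) (fun _ => True)
      [fun p => p.1, fun p => una p.2.1, fun p => p.2.2] V) :
    ∃ (M : Prog) (p : Polynomial ℕ), ∀ (x : Str) (k : ℕ) (z : Str), ∀ N,
      p.eval (x.length + k + z.length) ≤ N →
      Halts O M (Pool.Agent.Lib.Pf91712.inp3 x k z) N ∧
        accepts O M (Pool.Agent.Lib.Pf91712.inp3 x k z) N = V (x, k, z) := by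
  obtain ⟨P, p, hP⟩ := h
  refine ⟨.seq P (.seq (clear 0) (move 3 0 4)), p + 2 * Polynomial.X + 20,
    fun x k z N hN => ?_⟩
  obtain ⟨n, hn, hr⟩ := hP (x, k, z) trivial
  simp only [vals_cons, vals_nil, total_cons, total_nil, Nat.add_zero, List.cons_append,
    List.nil_append] at hn hr
  set v := V (x, k, z) with hv
  have h1 := run_clear (O := O) 0 (R [x, una k, z, [v]])
  have e1 : Function.update (R [x, una k, z, [v]]) 0 [] = R [[], una k, z, [v]] :=
    R_update [] x [] [una k, z, [v]]
  have e2 : R [x, una k, z, [v]] 0 = x := R_length [] x [una k, z, [v]]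
  rw [e1, e2] at h1
  have h2 := run_move (O := O) (r := 3) (s := 0) (tmp := 4) (by omega) (by omega) (by omega)
    (R [[], una k, z, [v]]) (by rw [R_of_ge]; simp)
  have e3 : R [[], una k, z, [v]] 3 = [v] := R_length [[], una k, z] [v] []
  have e4 : R [[], una k, z, [v]] 0 = [] := R_length [] [] [una k, z, [v]]
  have e5 : Function.update (R [[], una k, z, [v]]) 3 [] = R [[], una k, z, []] :=
    R_update [[], una k, z] [v] [] []
  have e6 : Function.update (R [[], una k, z, []]) 0 [v] = R [[v], una k, z, []] :=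
    R_update [] [] [v] [una k, z, []]
  rw [e3, e4, e5, List.append_nil, e6] at h2
  have h3 := (Run.seq hr (Run.seq h1 h2)).exec
  have e7 : R [x, una k, z] = Pool.Agent.Lib.Pf91712.inp3 x k z := by
    funext i
    rcases i with _ | _ | _ | i
    · simp [R, Pool.Agent.Lib.Pf91712.inp3]
    · simp [R, Pool.Agent.Lib.Pf91712.inp3, una]
    · simp [R, Pool.Agent.Lib.Pf91712.inp3]
    · simp [R, Pool.Agent.Lib.Pf91712.inp3]
  rw [e7] at h3
  have h4 := h3.halts (N := N) (by
    simp only [Polynomial.eval_add, Polynomial.eval_mul, Polynomial.eval_X, Polynomial.eval_ofNat,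
      List.length_singleton, un_length] at hN hn ⊢
    have e9 : x.length + (k + z.length) = x.length + k + z.length := by omega
    rw [e9] at hn
    omega)
  refine ⟨h4.1, ?_⟩
  rw [h4.2]
  have e8 : R [[v], una k, z, []] 0 = [v] := R_length [] [v] [una k, z, []]
  rw [e8]
  cases v <;> rfl

theorem allF_replicate (n : ℕ) : allF (List.replicate n false) = true := by
  unfold allF
  rw [decide_eq_true_eq]
  intro i hi
  rw [List.length_replicate] at hi
  simp [List.getD_eq_getElem?_getD, hi]

theorem eq_replicate {s : Str} (h : allF s = true) : s = List.replicate s.length false := by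
  unfold allF at h
  rw [decide_eq_true_eq] at h
  rw [List.eq_replicate_iff]
  refine ⟨rfl, fun b hb => ?_⟩
  obtain ⟨i, hi, rfl⟩ := List.getElem_of_mem hb
  have h1 := h i hi
  rw [List.getD_eq_getElem _ _ hi] at h1
  simpa using h1

end BarAAux

open BarAAux

theorem Funi_mem {O B : Lang} (h : ℕ → ℕ) (hB : B ∈ PO O) :
    Funi h B ∈ Pool.Agent.Lib.Pf91712.SharpWP O := by
  have hy : PolyC (fun _ : Str × ℕ × Str => O) (fun _ => True)
      [fun p => p.1, fun p => una p.2.1, fun p => p.2.2] (fun p => p.1) := PolyC.var (by simp)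
  have hz : PolyC (fun _ : Str × ℕ × Str => O) (fun _ => True)
      [fun p => p.1, fun p => una p.2.1, fun p => p.2.2] (fun p => p.2.2) := PolyC.var (by simp)
  have hm := (PolyN.length (PolyC.snd (PolyC.snd hy))).mul (lg_poly (PolyC.fst hy))
  have hV := (allF_poly (PolyC.drop hz hm)).and
    (polyB_of_PO hB (PolyC.pr (PolyC.fst hy) (PolyC.pr (PolyC.fst (PolyC.snd hy))
      (PolyC.take hz hm))))
  obtain ⟨M, p, hM⟩ := mem3 hV
  obtain ⟨b, c, hbc⟩ := eval_bound p
  have hle : ∀ (x : Str) (k : ℕ) (z : Str), z.length = h k * Nat.log 2 x.length →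
      p.eval (x.length + k + z.length) ≤ b * (k + h k + 1) ^ c * (x.length + 1) ^ c := by
    intro x k z hz
    refine (hbc _).trans ?_
    rw [mul_assoc, ← mul_pow]
    refine Nat.mul_le_mul_left _ (Nat.pow_le_pow_left ?_ c)
    rw [hz]
    have h1 : h k * Nat.log 2 x.length ≤ h k * x.length :=
      Nat.mul_le_mul_left _ (Nat.log_le_self 2 x.length)
    nlinarith [Nat.zero_le (k * x.length)]
  refine ⟨M, fun k => b * (k + h k + 1) ^ c, h, c, fun x k => ⟨fun z hz => ?_, ?_⟩⟩
  · exact (hM x k z _ (hle x k z hz)).1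
  · unfold Funi Pool.Agent.Lib.Pf91712.cnt
    refine Nat.card_congr (Equiv.subtypeEquivRight (fun z => and_congr_right (fun hz => ?_)))
    rw [(hM x k z _ (hle x k z hz)).2]

theorem Funi_eq (h : ℕ → ℕ) (B : Lang) (y a : Str) (k : ℕ) :
    Funi h B (pr y (pr a (on1 (h k)))) k =
      Nat.card {z : Str // z.length = h k * lg y ∧ B (pr y (pr a z)) = true} := by
  have hlen : (on1 (h k)).length = h k := by simp [on1]
  have hle : h k * lg y ≤ h k * Nat.log 2 (pr y (pr a (on1 (h k)))).length := by
    refine Nat.mul_le_mul_left _ (Nat.log_mono_right ?_)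
    rw [pr_length]
    omega
  unfold Funi
  simp only [fst_pr, snd_pr, hlen]
  set L := h k * Nat.log 2 (pr y (pr a (on1 (h k)))).length with hL
  set L' := h k * lg y with hL'
  refine Nat.card_congr
    { toFun := fun z => ⟨z.1.take L', ?_, ?_⟩
      invFun := fun z => ⟨z.1 ++ List.replicate (L - L') false, ?_, ?_⟩
      left_inv := ?_
      right_inv := ?_ }
  · rw [List.length_take, z.2.1]
    omega
  · have h1 := z.2.2
    rw [Bool.and_eq_true] at h1
    exact h1.2
  · rw [List.length_append, List.length_replicate, z.2.1]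
    omega
  · rw [Bool.and_eq_true]
    have h1 : (z.1 ++ List.replicate (L - L') false).drop L' = List.replicate (L - L') false := by
      exact List.drop_left' z.2.1
    have h2 : (z.1 ++ List.replicate (L - L') false).take L' = z.1 := by
      exact List.take_left' z.2.1
    rw [h1, h2]
    exact ⟨allF_replicate _, z.2.2⟩
  · intro z
    refine Subtype.ext ?_
    have h1 := z.2.2
    rw [Bool.and_eq_true] at h1
    have h2 := eq_replicate h1.1
    have h3 : (z.1.drop L').length = L - L' := by rw [List.length_drop, z.2.1]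
    rw [h3] at h2
    show z.1.take L' ++ List.replicate (L - L') false = z.1
    rw [← h2, List.take_append_drop]
  · intro z
    refine Subtype.ext ?_
    exact List.take_left' z.2.1

end Pool.Agent.Lib.Pf91712q
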