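import Pool.Agent.Lib.Pf91712q.Defs

/-!
Counting strings made of blocks; the leading binary digit of the counting problem.

PLAN. `bsl n` is the finset of the strings of length `n`. `split_bsl`: `Finset.card_eq_sum_card_fiberwise`
for `List.take a` and `Finset.card_bij` (`s ↦ v ++ s`) for the fibres. `cnt_blk`: induction on `t` with
`split_bsl`: for `u.length = m` we have `blkOK C m (t + 1) (u ++ s) ↔ C u ∧ blkOK C m t s`
(`(t + 1) * m + L = m + (t * m + L)`, `(u ++ s).drop ((j + 1) * m) = s.drop (j * m)`); for `t = 0` only
the string of zeros. `cnt_tst`: `split_bsl (m + 1) (t * m + L)` with `r = v ++ s`: since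
`(lastP m z).length ≤ m`, `r.take ((lastP m z).length + 1) = v.take _`, `r.take m = v.take m`,
`r.drop (m + 1) = s`; then `cnt_blk`. The bit lemmas: `g = b :: r`, so the number of the `g` is
`A0 + (2 ^ (N - 1) - A1)` with `A0 = #{r | cond for b = false}`, `A1 = #{r | cond for b = true}`; and
`A0 < 2 ^ (N - 1)` because the string of ones is not counted (the tail of the padding is not empty),
so the digit `N - 1` is `1` iff `A1 ≤ A0`.
-/

set_option autoImplicit false

namespace Pool.Agent.Lib.Pf91712q

open Pool.Agent.Lib.Pa76659 (Str Lang)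

theorem mem_bsl {n : ℕ} {s : Str} : s ∈ bsl n ↔ s.length = n := by
  unfold bsl
  simp only [Finset.mem_image, Finset.mem_univ, true_and]
  constructor
  · rintro ⟨v, rfl⟩
    exact v.2
  · intro h
    exact ⟨⟨s, h⟩, rfl⟩

theorem card_bsl (n : ℕ) : (bsl n).card = 2 ^ n := by
  have hi : Function.Injective (fun v : List.Vector Bool n => (v.1 : Str)) :=
    fun a b h => Subtype.ext h
  have h1 := Finset.card_image_of_injective (Finset.univ : Finset (List.Vector Bool n)) hi
  have h2 : (Finset.univ : Finset (List.Vector Bool n)).card = 2 ^ n := by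
    rw [Finset.card_univ]
    simp [card_vector]
  exact h1.trans h2

theorem natCard_eq (n : ℕ) (P : Str → Prop) [DecidablePred P] :
    Nat.card {s : Str // s.length = n ∧ P s} = ((bsl n).filter P).card := by
  have e : {s : Str // s.length = n ∧ P s} ≃ {s : Str // s ∈ (bsl n).filter P} :=
    Equiv.subtypeEquivRight (by intro s; simp [mem_bsl])
  rw [Nat.card_congr e, Nat.card_eq_fintype_card, Fintype.card_coe]

theorem split_bsl (a b : ℕ) (P : Str → Prop) [DecidablePred P] :
    ((bsl (a + b)).filter P).card =
      ∑ v ∈ bsl a, ((bsl b).filter (fun s => P (v ++ s))).card := by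
  rw [Finset.card_eq_sum_card_fiberwise (f := List.take a) (t := bsl a)]
  · refine Finset.sum_congr rfl fun v hv => ?_
    symm
    rw [mem_bsl] at hv
    refine Finset.card_bij (fun s _ => v ++ s) ?_ ?_ ?_
    · intro s hs
      simp only [Finset.mem_filter, mem_bsl] at hs ⊢
      refine ⟨⟨by simp [hv, hs.1], hs.2⟩, ?_⟩
      rw [← hv]
      simp
    · intro s _ s' _ h
      exact List.append_cancel_left h
    · intro r hr
      simp only [Finset.mem_filter, mem_bsl] at hr
      refine ⟨r.drop a, ?_, ?_⟩
      · simp only [Finset.mem_filter, mem_bsl, List.length_drop]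
        refine ⟨by omega, ?_⟩
        rw [← hr.2, List.take_append_drop]
        exact hr.1.2
      · rw [← hr.2, List.take_append_drop]
  · intro r hr
    have h1 := (Finset.mem_filter.1 hr).1
    rw [mem_bsl] at h1
    show List.take a r ∈ bsl a
    rw [mem_bsl, List.length_take]
    omega

theorem allF_iff (s : Str) : allF s = true ↔ s = List.replicate s.length false := by
  unfold allF
  rw [decide_eq_true_iff]
  constructor
  · intro h
    apply List.ext_getElem (by simp)
    intro i h1 h2
    have := h i h1
    rw [List.getD_eq_getElem _ _ h1] at this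
    simp only [List.getElem_replicate]
    simpa using this
  · intro h i hi
    rw [h]
    simp

theorem blkOK_succ (C : Str → Bool) (m t : ℕ) (u s : Str) (hu : u.length = m) :
    blkOK C m (t + 1) (u ++ s) = (C u && blkOK C m t s) := by
  have hd : ∀ j : ℕ, (u ++ s).drop ((j + 1) * m) = s.drop (j * m) := by
    intro j
    rw [List.drop_append]
    have h1 : u.drop ((j + 1) * m) = [] := by
      apply List.drop_eq_nil_of_le
      rw [hu, Nat.add_mul]
      omega
    have h2 : (j + 1) * m - u.length = j * m := by
      rw [hu, Nat.add_mul]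
      omega
    rw [h1, h2]
    rfl
  have h0 : ((u ++ s).drop (0 * m)).take m = u := by
    rw [Nat.zero_mul, List.drop_zero, ← hu]
    simp
  unfold blkOK
  rw [hd t, Bool.eq_iff_iff]
  simp only [Bool.and_eq_true, decide_eq_true_eq]
  constructor
  · rintro ⟨h, h'⟩
    refine ⟨?_, ?_, h'⟩
    · have := h 0 (Nat.succ_pos t)
      rwa [h0] at this
    · intro j hj
      have := h (j + 1) (Nat.succ_lt_succ hj)
      rwa [hd j] at this
  · rintro ⟨h1, h2, h'⟩
    refine ⟨?_, h'⟩
    intro j hj
    cases j with
    | zero => rw [h0]; exact h1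
    | succ j => rw [hd j]; exact h2 j (Nat.lt_of_succ_lt_succ hj)

theorem cnt_blk (C : Str → Bool) (m t L : ℕ) :
    Nat.card {r : Str // r.length = t * m + L ∧ blkOK C m t r = true} =
      (Nat.card {u : Str // u.length = m ∧ C u = true}) ^ t := by
  rw [natCard_eq, natCard_eq]
  induction t with
  | zero =>
    rw [pow_zero, Nat.zero_mul, Nat.zero_add, Finset.card_eq_one]
    refine ⟨List.replicate L false, ?_⟩
    ext r
    simp only [Finset.mem_filter, mem_bsl, Finset.mem_singleton, blkOK, Nat.zero_mul,
      List.drop_zero, Bool.and_eq_true, decide_eq_true_eq, allF_iff]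
    constructor
    · rintro ⟨h1, -, h2⟩
      rw [h2, h1]
    · rintro rfl
      simp
  | succ t ih =>
    have e : (t + 1) * m + L = m + (t * m + L) := by ring
    rw [e, split_bsl]
    have : ∀ v ∈ bsl m, ((bsl (t * m + L)).filter
        (fun s => blkOK C m (t + 1) (v ++ s) = true)).card =
        if C v = true then ((bsl m).filter (fun u => C u = true)).card ^ t else 0 := by
      intro v hv
      rw [mem_bsl] at hv
      split_ifs with hC
      · rw [← ih]
        congr 1
        apply Finset.filter_congr
        intro s _
        rw [blkOK_succ C m t v s hv, hC, Bool.true_and]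
      · rw [Finset.card_eq_zero, Finset.filter_eq_empty_iff]
        intro s _
        rw [blkOK_succ C m t v s hv]
        simp [hC]
    rw [Finset.sum_congr rfl this, ← Finset.sum_filter, Finset.sum_const, smul_eq_mul, pow_succ]
    ring

theorem length_lastP_le (m : ℕ) (z : Str) : (lastP m z).length ≤ m := by
  have h1 : (lastP m z).length = z.length - z.length / (m + 1) * (m + 1) := by
    simp [lastP]
  have h2 : z.length / (m + 1) * (m + 1) + z.length % (m + 1) = z.length :=
    Nat.div_add_mod' z.length (m + 1)
  have h3 : z.length % (m + 1) < m + 1 := Nat.mod_lt _ (Nat.succ_pos m)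
  rw [h1]
  generalize z.length / (m + 1) * (m + 1) = q at h2
  omega

theorem cnt_tst (A : Str → Str → Bool) (m t L : ℕ) (z : Str) (b : Bool) :
    Nat.card {r : Str // r.length = (m + 1) + (t * m + L) ∧ tst A m t z b r = true} =
      SS A m t z (lastP m z ++ [b]) := by
  classical
  rw [natCard_eq, split_bsl, SS]
  refine Finset.sum_congr rfl fun v hv => ?_
  rw [mem_bsl] at hv
  have hl := length_lastP_le m z
  have hp : (lastP m z ++ [b]).length = (lastP m z).length + 1 := by simp
  have h1 : ∀ s : Str, (v ++ s).take ((lastP m z).length + 1) = v.take ((lastP m z).length + 1) := by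
    intro s
    rw [List.take_append_of_le_length (by omega)]
  have h2 : ∀ s : Str, (v ++ s).take m = v.take m := by
    intro s
    rw [List.take_append_of_le_length (by omega)]
  have h3 : ∀ s : Str, (v ++ s).drop (m + 1) = s := by
    intro s
    rw [← hv, List.drop_left]
  have h4 : ∀ s : Str, (tst A m t z b (v ++ s) = true) ↔
      (v.take (lastP m z ++ [b]).length = lastP m z ++ [b] ∧
        blkOK (fun u => inY A m z u && !(A u (v.take m))) m t s = true) := by
    intro s
    unfold tst
    rw [h1, h2, h3, hp, Bool.and_eq_true, decide_eq_true_iff]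
  simp only [h4]
  by_cases hq : v.take (lastP m z ++ [b]).length = lastP m z ++ [b]
  · rw [if_pos hq]
    have h5 := cnt_blk (fun u => inY A m z u && !(A u (v.take m))) m t L
    rw [natCard_eq] at h5
    simp only [hq, true_and]
    rw [h5, cK]
  · rw [if_neg hq]
    simp only [hq, false_and, Finset.filter_false, Finset.card_empty]

namespace CntBAux

theorem bsl_one : bsl 1 = {[false], [true]} := by
  ext s
  rw [mem_bsl]
  simp only [Finset.mem_insert, Finset.mem_singleton]
  constructor
  · intro h
    obtain ⟨b, rfl⟩ := List.length_eq_one_iff.1 h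
    cases b
    · exact Or.inl rfl
    · exact Or.inr rfl
  · rintro (rfl | rfl) <;> rfl

theorem cons_count (N : ℕ) (Q : Bool → Str → Bool) :
    Nat.card {g : Str // g.length = 1 + N ∧
      (if g.headD false then Q true g.tail else Q false g.tail) = true} =
    Nat.card {r : Str // r.length = N ∧ Q false r = true} +
      Nat.card {r : Str // r.length = N ∧ Q true r = true} := by
  rw [natCard_eq, natCard_eq, natCard_eq, split_bsl, bsl_one, Finset.sum_insert (by simp),
    Finset.sum_singleton]
  simp

theorem compl_count (N : ℕ) (P : Str → Bool) :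
    Nat.card {r : Str // r.length = N ∧ (!(P r)) = true} +
      Nat.card {r : Str // r.length = N ∧ P r = true} = 2 ^ N := by
  rw [natCard_eq, natCard_eq, ← card_bsl N,
    ← Finset.card_filter_add_card_filter_not (s := bsl N) (fun r => P r = true), Nat.add_comm]
  congr 2
  apply Finset.filter_congr
  intro r _
  cases P r <;> simp

theorem card_le (N : ℕ) (P : Str → Bool) :
    Nat.card {r : Str // r.length = N ∧ P r = true} ≤ 2 ^ N := by
  have := compl_count N P
  omega

theorem testBit_top {n i : ℕ} (h : n < 2 * 2 ^ i) : n.testBit i = decide (2 ^ i ≤ n) := by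
  rw [Nat.testBit_eq_decide_div_mod_eq]
  congr 1
  apply propext
  have h0 : 0 < 2 ^ i := by positivity
  constructor
  · intro h1
    by_contra h2
    rw [Nat.div_eq_of_lt (by omega)] at h1
    omega
  · intro h1
    have h2 : n / 2 ^ i = 1 := Nat.div_eq_of_lt_le (by omega) (by omega)
    rw [h2]

end CntBAux

open CntBAux

theorem cnt_allF (n : ℕ) : Nat.card {r : Str // r.length = n ∧ allF r = true} = 1 := by
  rw [Nat.card_eq_one_iff_unique]
  constructor
  · constructor
    rintro ⟨r, hr, h⟩ ⟨r', hr', h'⟩
    apply Subtype.ext
    simp only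
    unfold allF at h h'
    rw [decide_eq_true_eq] at h h'
    apply List.ext_getElem (hr.trans hr'.symm)
    intro i h1 h2
    have h3 := h i h1
    have h4 := h' i h2
    rw [List.getD_eq_getElem _ _ h1] at h3
    rw [List.getD_eq_getElem _ _ h2] at h4
    rw [Bool.not_eq_true'] at h3 h4
    rw [h3, h4]
  · refine ⟨⟨List.replicate n false, List.length_replicate, ?_⟩⟩
    unfold allF
    rw [decide_eq_true_eq]
    intro i hi
    rw [List.getD_eq_getElem _ _ hi, List.getElem_replicate]
    rfl

theorem bit_false (A : Str → Str → Bool) (m t N : ℕ) (z : Str) (hN : (t + 1) * m + 3 ≤ N) :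
    (Nat.card {g : Str // g.length = N ∧ Psi A m t false z g = true}).testBit (N - 1) =
      ans A m t z := by
  obtain ⟨L, rfl⟩ : ∃ L, N = 1 + ((m + 1) + (t * m + (L + 1))) := by
    refine ⟨N - ((t + 1) * m + 3), ?_⟩
    have e : (t + 1) * m = t * m + m := by ring
    omega
  have e1 := cons_count ((m + 1) + (t * m + (L + 1)))
    (fun b r => if b then !(tst A m t z false r) else tst A m t z true r)
  simp only [Bool.false_eq_true, if_true, if_false] at e1
  have e2 := compl_count ((m + 1) + (t * m + (L + 1))) (tst A m t z false)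
  have e3 := cnt_tst A m t (L + 1) z false
  have e4 := cnt_tst A m t (L + 1) z true
  have e5 := cnt_tst A m t 0 z true
  have e6 := card_le ((m + 1) + (t * m + 0)) (tst A m t z true)
  have e7 : 2 ^ ((m + 1) + (t * m + 0)) < 2 ^ ((m + 1) + (t * m + (L + 1))) :=
    Nat.pow_lt_pow_right (by norm_num) (by omega)
  have hP : ∀ g : Str, Psi A m t false z g =
      if g.headD false = true then !(tst A m t z false g.tail) else tst A m t z true g.tail := by
    intro g
    simp [Psi]
  simp only [hP]
  rw [e1, Nat.add_sub_cancel_left]
  rw [e5] at e6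
  rw [e4]
  rw [e3] at e2
  rw [testBit_top (by omega)]
  unfold ans
  congr 1
  apply propext
  constructor <;> intro h <;> omega

theorem bit_true (A : Str → Str → Bool) (m t N : ℕ) (z : Str) (ht : 1 ≤ t)
    (hN : (t + 1) * m + 3 ≤ N) :
    (Nat.card {g : Str // g.length = N ∧ Psi A m t true z g = true}).testBit (N - 1) =
      decide (1 ≤ cY A m z) := by
  obtain ⟨L, rfl⟩ : ∃ L, N = 1 + (1 * m + (L + 1)) := by
    refine ⟨N - (m + 2), ?_⟩
    have e : m ≤ (t + 1) * m := Nat.le_mul_of_pos_left m (by omega)
    omega
  have e1 := cons_count (1 * m + (L + 1))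
    (fun b r => if b then !(allF r) else blkOK (inY A m z) m 1 r)
  simp only [Bool.false_eq_true, if_true, if_false] at e1
  have e2 := compl_count (1 * m + (L + 1)) allF
  have e3 := cnt_allF (1 * m + (L + 1))
  have e4 := cnt_blk (inY A m z) m 1 (L + 1)
  have e6 := card_le m (inY A m z)
  have e7 : 2 ^ m < 2 ^ (1 * m + (L + 1)) :=
    Nat.pow_lt_pow_right (by norm_num) (by omega)
  have hP : ∀ g : Str, Psi A m t true z g =
      if g.headD false = true then !(allF g.tail) else blkOK (inY A m z) m 1 g.tail := by
    intro g
    simp [Psi]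
  simp only [hP]
  rw [e1, Nat.add_sub_cancel_left, e4, pow_one]
  rw [e3] at e2
  change _ = decide (1 ≤ Nat.card {u : Str // u.length = m ∧ inY A m z u = true})
  rw [testBit_top (by omega)]
  congr 1
  apply propext
  constructor <;> intro h <;> omega

end Pool.Agent.Lib.Pf91712q
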