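import Mathlib

/-!
A computable reparametrisation with a computable left inverse.

PLAN. (1) For a `Primcodable` type `α` and `P : α → ℕ → Bool` with `Computable₂ P` and
`hex : ∀ a, ∃ n, P a n = true`, `Computable (fun a => Nat.find (hex a))`: use `Partrec.rfind`
(`Nat.rfind (fun n => Part.some (P a n)) = Part.some (Nat.find (hex a))`, `Nat.mem_rfind`).
(2) For all `c`, `m` there is `k > m` with `c * t k ≤ h k`: otherwise `h k ≤ c' * t k` for all `k` with
`c' = c + ∑ k ∈ range (m + 1), h k` (here `1 ≤ t k` is used), contradiction to `hub c'`.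
(3) `κ 0 = find (h0 0 * t k ≤ h k)`, `κ (k + 1) = find (κ k < k' ∧ h0 (k + 1) * t k' ≤ h k')`,
`Computable.nat_rec`. `κ` is strictly increasing, so `k ≤ κ k`; `inv k' = find (k' ≤ κ k)`.
-/

set_option autoImplicit false

namespace Pool.Agent.Lib.Pf91712q

namespace CompAux

theorem comp_find {α : Type*} [Primcodable α] {P : α → ℕ → Bool} (hP : Computable₂ P)
    (hex : ∀ a, ∃ n, P a n = true) : Computable (fun a => Nat.find (hex a)) := by
  have h1 : Partrec fun a => Nat.rfind (fun n => (Part.some (P a n) : Part Bool)) :=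
    Partrec.rfind hP.partrec₂
  refine h1.of_eq fun a => ?_
  refine Part.eq_some_iff.2 (Nat.mem_rfind.2 ⟨?_, ?_⟩)
  · exact Part.mem_some_iff.2 (Nat.find_spec (hex a)).symm
  · intro m hm
    have := Nat.find_min (hex a) hm
    refine Part.mem_some_iff.2 ?_
    cases hc : P a m with
    | true => exact (this hc).elim
    | false => rfl

theorem comp_le {α : Type*} [Primcodable α] {f g : α → ℕ} (hf : Computable f)
    (hg : Computable g) : Computable (fun a => (f a - g a) == 0) :=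
  Primrec.beq.to_comp.comp (Primrec.nat_sub.to_comp.comp hf hg) (Computable.const 0)

theorem le_iff (x y : ℕ) : ((x - y) == 0) = true ↔ x ≤ y := by
  rw [beq_iff_eq]
  omega

/-- the test -/
def Q (h t : ℕ → ℕ) (a : ℕ × ℕ) (k : ℕ) : Bool :=
  ((a.2 + 1 - k) == 0) && ((a.1 * t k - h k) == 0)

theorem Q_iff (h t : ℕ → ℕ) (a : ℕ × ℕ) (k : ℕ) :
    Q h t a k = true ↔ a.2 < k ∧ a.1 * t k ≤ h k := by
  unfold Q
  rw [Bool.and_eq_true, le_iff, le_iff]
  exact Iff.rfl

theorem comp_Q {h t : ℕ → ℕ} (hh : Computable h) (ht : Computable t) : Computable₂ (Q h t) := by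
  have e1 : Computable (fun q : (ℕ × ℕ) × ℕ => q.1.2 + 1) :=
    Computable.succ.comp (Computable.snd.comp Computable.fst)
  have e2 : Computable (fun q : (ℕ × ℕ) × ℕ => q.2) := Computable.snd
  have e3 : Computable (fun q : (ℕ × ℕ) × ℕ => q.1.1 * t q.2) :=
    Primrec.nat_mul.to_comp.comp (Computable.fst.comp Computable.fst) (ht.comp Computable.snd)
  have e4 : Computable (fun q : (ℕ × ℕ) × ℕ => h q.2) := hh.comp Computable.snd
  exact (Primrec.and.to_comp.comp (comp_le e1 e2) (comp_le e3 e4))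

theorem ex_large (h t : ℕ → ℕ) (ht1 : ∀ k, 1 ≤ t k) (hub : ∀ c, ∃ k, c * t k < h k) (c m : ℕ) :
    ∃ k, m < k ∧ c * t k ≤ h k := by
  obtain ⟨k, hk⟩ := hub (c + ∑ j ∈ Finset.range (m + 1), h j)
  refine ⟨k, ?_, ?_⟩
  · by_contra hle
    have h1 : h k ≤ ∑ j ∈ Finset.range (m + 1), h j :=
      Finset.single_le_sum (f := h) (fun _ _ => Nat.zero_le _) (Finset.mem_range.2 (by omega))
    have h2 : (c + ∑ j ∈ Finset.range (m + 1), h j) * 1 ≤
        (c + ∑ j ∈ Finset.range (m + 1), h j) * t k := Nat.mul_le_mul_left _ (ht1 k)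
    omega
  · have h2 : c * t k ≤ (c + ∑ j ∈ Finset.range (m + 1), h j) * t k :=
      Nat.mul_le_mul_right _ (by omega)
    omega

end CompAux

open CompAux

theorem exists_kappa (h t h0 : ℕ → ℕ) (hh : Computable h) (ht : Computable t)
    (hh0 : Computable h0) (ht1 : ∀ k, 1 ≤ t k) (hub : ∀ c, ∃ k, c * t k < h k) :
    ∃ (κ inv : ℕ → ℕ), Computable κ ∧ Computable inv ∧ (∀ k, inv (κ k) = k) ∧
      ∀ k, h0 k * t (κ k) ≤ h (κ k) := by
  have hex : ∀ a : ℕ × ℕ, ∃ k, Q h t a k = true := by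
    intro a
    obtain ⟨k, hk⟩ := ex_large h t ht1 hub a.1 a.2
    exact ⟨k, (Q_iff h t a k).2 hk⟩
  obtain ⟨G, hGdef⟩ : ∃ G : ℕ × ℕ → ℕ, G = fun a => Nat.find (hex a) := ⟨_, rfl⟩
  have hG : Computable G := by
    rw [hGdef]
    exact comp_find (comp_Q hh ht) hex
  have hGs : ∀ a, a.2 < G a ∧ a.1 * t (G a) ≤ h (G a) := by
    intro a
    rw [hGdef]
    exact (Q_iff h t a _).1 (Nat.find_spec (hex a))
  obtain ⟨κ, hκdef⟩ : ∃ κ : ℕ → ℕ, κ = fun k => Nat.rec (motive := fun _ => ℕ) (G (h0 0, 0))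
    (fun y IH => G (h0 (y + 1), IH)) k := ⟨_, rfl⟩
  have hκ0 : κ 0 = G (h0 0, 0) := by rw [hκdef]; rfl
  have hκs : ∀ k, κ (k + 1) = G (h0 (k + 1), κ k) := by intro k; rw [hκdef]
  have hκ : Computable κ := by
    rw [hκdef]
    have hstep : Computable₂ (fun (_ : ℕ) (p : ℕ × ℕ) => G (h0 (p.1 + 1), p.2)) := by
      have e1 : Computable (fun q : ℕ × (ℕ × ℕ) => h0 (q.2.1 + 1)) :=
        hh0.comp (Computable.succ.comp (Computable.fst.comp Computable.snd))
      have e2 : Computable (fun q : ℕ × (ℕ × ℕ) => q.2.2) :=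
        Computable.snd.comp Computable.snd
      exact hG.comp (e1.pair e2)
    exact Computable.nat_rec Computable.id (Computable.const (G (h0 0, 0))) hstep
  have hlt : ∀ k, κ k < κ (k + 1) := by
    intro k
    rw [hκs]
    exact (hGs (h0 (k + 1), κ k)).1
  have hmono : StrictMono κ := strictMono_nat_of_lt_succ hlt
  have hP : Computable₂ (fun (k' k : ℕ) => ((k' - κ k) == 0)) :=
    comp_le Computable.fst (hκ.comp Computable.snd)
  have hex2 : ∀ k' : ℕ, ∃ k, ((k' - κ k) == 0) = true := by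
    intro k'
    exact ⟨k', (le_iff _ _).2 (hmono.id_le k')⟩
  refine ⟨κ, fun k' => Nat.find (hex2 k'), hκ, comp_find hP hex2, ?_, ?_⟩
  · intro k
    rw [Nat.find_eq_iff]
    refine ⟨(le_iff _ _).2 (le_refl _), ?_⟩
    intro j hj hjk
    have h1 := (le_iff _ _).1 hjk
    have h2 := hmono hj
    omega
  · intro k
    cases k with
    | zero =>
      rw [hκ0]
      exact (hGs (h0 0, 0)).2
    | succ k =>
      rw [hκs]
      exact (hGs (h0 (k + 1), κ k)).2

end Pool.Agent.Lib.Pf91712q
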