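import Pool.Agent.Lib.Pf91712q.Cnt

/-!
The greedy choice of tests kills all strings if every list of `t` strings fails a common test.

PLAN. Write `Y z` for the set of the `u` of length `m` with `inY A m z u` (`cY` elements).
(1) `SS_split`: for `p.length ≤ m`, `SS z p = SS z (p ++ [true]) + SS z (p ++ [false])` (for `v` of length
`m + 1`: `v.take (|p| + 1) = p ++ [b]` iff `v.take |p| = p` and `v[|p|] = b`).
(2) If `|z|` is a multiple of `m + 1` and `|p| ≤ m` then `lastP m (z ++ p) = p`,
`inY A m (z ++ p) = inY A m z`, `cK A m (z ++ p) = cK A m z`, `SS A m t (z ++ p) = SS A m t z`. So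
`ans A m t (z ++ p)` is a bit `b` with `SS z p ≤ 2 * SS z (p ++ [b])`. After `m + 1` steps of `f` one
reaches `z ++ v` with `|v| = m + 1` and `SS z [] ≤ 2 ^ (m + 1) * SS z v = 2 ^ (m + 1) * cK z v ^ t`.
(3) `2 * cY z ^ t ≤ SS z []`: `SS z [] = ∑ v ∈ bsl (m+1), cK z v ^ t` is twice the sum over the `v` of
length `m` (append the last bit); each `t`-tuple of elements of `Y z` fails a common test `v` by `hNo`
(`List.ofFn`), so `Fintype.piFinset (fun _ : Fin t => Y z)` is covered by the
`Fintype.piFinset (fun _ => K z v)` (`Finset.card_biUnion_le`).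
(4) `cY (z ++ v) + cK z v = cY z` for `|v| = m + 1`, `|z|` a multiple of `m + 1`. By (2), (3):
`cY z ^ t ≤ 2 ^ m * cK z v ^ t ≤ (D * cK z v) ^ t`, so `cY z ≤ D * cK z v` and
`D * cY (z ++ v) ≤ (D - 1) * cY z`.
(5) After `T = D * (m + 1)` blocks `D ^ T * cY ≤ (D - 1) ^ T * 2 ^ m`, and `D ^ D ≥ 2 * (D - 1) ^ D`
(Bernoulli), so `cY < 1`.
(6) For `W ≥ T * (m + 1)` the string `f^[W] []` extends `f^[T * (m + 1)] []`, and `inY` is antitone
(`inY A m (z ++ p) u = true → inY A m z u = true`).
-/

set_option autoImplicit false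

namespace Pool.Agent.Lib.Pf91712q

open Pool.Agent.Lib.Pa76659 (Str Lang)

/-- the strings which pass the tests in `z`, as a finset -/
def Yf (A : Str → Str → Bool) (m : ℕ) (z : Str) : Finset Str :=
  (bsl m).filter (fun u => inY A m z u = true)

/-- the strings which pass the tests in `z` and fail `v`, as a finset -/
def Kf (A : Str → Str → Bool) (m : ℕ) (z v : Str) : Finset Str :=
  (bsl m).filter (fun u => (inY A m z u && !(A u (v.take m))) = true)

theorem cY_eq (A : Str → Str → Bool) (m : ℕ) (z : Str) : cY A m z = (Yf A m z).card :=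
  natCard_eq m (fun u => inY A m z u = true)

theorem cK_eq (A : Str → Str → Bool) (m : ℕ) (z v : Str) : cK A m z v = (Kf A m z v).card :=
  natCard_eq m (fun u => (inY A m z u && !(A u (v.take m))) = true)

theorem piece (m i : ℕ) (z q : Str) (h : i * (m + 1) + m ≤ z.length) :
    ((z ++ q).drop (i * (m + 1))).take m = (z.drop (i * (m + 1))).take m := by
  rw [List.drop_append_of_le_length (by omega), List.take_append_of_le_length]
  rw [List.length_drop]; omega

theorem div_mul_bound {m n i : ℕ} (h : i < n / (m + 1)) : i * (m + 1) + (m + 1) ≤ n := by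
  have h1 : (i + 1) * (m + 1) ≤ n := (Nat.le_div_iff_mul_le (Nat.succ_pos m)).1 h
  linarith [h1]

theorem inY_anti (A : Str → Str → Bool) (m : ℕ) (z p u : Str) (h : inY A m (z ++ p) u = true) :
    inY A m z u = true := by
  unfold inY at h ⊢
  rw [decide_eq_true_eq] at h ⊢
  intro i hi
  have h1 := div_mul_bound hi
  have h2 := h i (lt_of_lt_of_le hi (Nat.div_le_div_right (by rw [List.length_append]; omega)))
  rwa [piece m i z p (by omega)] at h2

theorem inY_short (A : Str → Str → Bool) (m j : ℕ) (z p : Str) (hz : z.length = j * (m + 1))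
    (hp : p.length ≤ m) (u : Str) : inY A m (z ++ p) u = inY A m z u := by
  have e1 : (z ++ p).length / (m + 1) = j := by
    rw [List.length_append, hz]
    rw [Nat.add_comm, Nat.add_mul_div_right _ _ (Nat.succ_pos m), Nat.div_eq_of_lt (by omega)]
    omega
  have e2 : z.length / (m + 1) = j := by
    rw [hz]; exact Nat.mul_div_cancel _ (Nat.succ_pos m)
  unfold inY
  rw [e1, e2, decide_eq_decide]
  constructor
  · intro h i hi
    have h1 : i * (m + 1) + (m + 1) ≤ z.length := div_mul_bound (by rw [e2]; exact hi)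
    have h2 := h i hi
    rwa [piece m i z p (by omega)] at h2
  · intro h i hi
    have h1 : i * (m + 1) + (m + 1) ≤ z.length := div_mul_bound (by rw [e2]; exact hi)
    rw [piece m i z p (by omega)]
    exact h i hi

theorem inY_block (A : Str → Str → Bool) (m j : ℕ) (z v : Str) (hz : z.length = j * (m + 1))
    (hv : v.length = m + 1) (u : Str) :
    inY A m (z ++ v) u = (inY A m z u && A u (v.take m)) := by
  have e1 : (z ++ v).length / (m + 1) = j + 1 := by
    rw [List.length_append, hz, hv]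
    have : j * (m + 1) + (m + 1) = (j + 1) * (m + 1) := by ring
    rw [this]; exact Nat.mul_div_cancel _ (Nat.succ_pos m)
  have e2 : z.length / (m + 1) = j := by
    rw [hz]; exact Nat.mul_div_cancel _ (Nat.succ_pos m)
  have e3 : (z ++ v).drop (j * (m + 1)) = v := by
    rw [← hz]; exact List.drop_left
  rw [Bool.eq_iff_iff, Bool.and_eq_true]
  unfold inY
  rw [e1, e2, decide_eq_true_eq, decide_eq_true_eq]
  constructor
  · intro h
    refine ⟨fun i hi => ?_, ?_⟩
    · have h1 : i * (m + 1) + (m + 1) ≤ z.length := div_mul_bound (by rw [e2]; exact hi)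
      have h2 := h i (by omega)
      rwa [piece m i z v (by omega)] at h2
    · have h2 := h j (by omega)
      rwa [e3] at h2
  · rintro ⟨h, h'⟩ i hi
    rcases Nat.lt_succ_iff_lt_or_eq.1 hi with hi | hi
    · have h1 : i * (m + 1) + (m + 1) ≤ z.length := div_mul_bound (by rw [e2]; exact hi)
      rw [piece m i z v (by omega)]
      exact h i hi
    · subst hi
      rw [e3]; exact h'

theorem lastP_short (m j : ℕ) (z p : Str) (hz : z.length = j * (m + 1))
    (hp : p.length ≤ m) : lastP m (z ++ p) = p := by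
  have e1 : (z ++ p).length / (m + 1) = j := by
    rw [List.length_append, hz]
    rw [Nat.add_comm, Nat.add_mul_div_right _ _ (Nat.succ_pos m), Nat.div_eq_of_lt (by omega)]
    omega
  unfold lastP
  rw [e1, ← hz]; exact List.drop_left

theorem cK_short (A : Str → Str → Bool) (m j : ℕ) (z p : Str) (hz : z.length = j * (m + 1))
    (hp : p.length ≤ m) (v : Str) : cK A m (z ++ p) v = cK A m z v := by
  rw [cK_eq, cK_eq]
  unfold Kf
  simp only [inY_short A m j z p hz hp]

theorem SS_short (A : Str → Str → Bool) (m t j : ℕ) (z p : Str) (hz : z.length = j * (m + 1))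
    (hp : p.length ≤ m) (q : Str) : SS A m t (z ++ p) q = SS A m t z q := by
  unfold SS
  simp only [cK_short A m j z p hz hp]

theorem SS_split (A : Str → Str → Bool) (m t : ℕ) (z p : Str) (hp : p.length ≤ m) :
    SS A m t z p = SS A m t z (p ++ [true]) + SS A m t z (p ++ [false]) := by
  unfold SS
  rw [← Finset.sum_add_distrib]
  refine Finset.sum_congr rfl (fun v hv => ?_)
  have hv' : v.length = m + 1 := mem_bsl.1 hv
  have hlt : p.length < v.length := by omega
  have e : v.take (p.length + 1) = v.take p.length ++ [v[p.length]] :=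
    (List.take_append_getElem hlt).symm
  have hl : ∀ b : Bool, (p ++ [b]).length = p.length + 1 := fun b => by simp
  have hb : ∀ b : Bool, (v.take (p.length + 1) = p ++ [b]) ↔
      (v.take p.length = p ∧ v[p.length] = b) := by
    intro b
    rw [e]
    constructor
    · intro h
      have := List.append_inj' h rfl
      exact ⟨this.1, by simpa using this.2⟩
    · rintro ⟨h1, h2⟩
      rw [h1, h2]
  rw [hl, hl]
  simp only [hb]
  by_cases h : v.take p.length = p
  · rcases hc : v[p.length] with _ | _ <;> simp [h]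
  · simp [h]

theorem ans_step (A : Str → Str → Bool) (m t j : ℕ) (z p : Str) (hz : z.length = j * (m + 1))
    (hp : p.length ≤ m) :
    SS A m t z p ≤ 2 * SS A m t z (p ++ [ans A m t (z ++ p)]) := by
  have h := SS_split A m t z p hp
  unfold ans
  rw [lastP_short m j z p hz hp, SS_short A m t j z p hz hp, SS_short A m t j z p hz hp]
  by_cases hle : SS A m t z (p ++ [false]) ≤ SS A m t z (p ++ [true])
  · rw [decide_eq_true hle]; omega
  · rw [decide_eq_false hle]; omega

theorem run_block (A : Str → Str → Bool) (m t j : ℕ) (f : Str → Str)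
    (hf : ∀ z, f z = z ++ [ans A m t z]) (z : Str) (hz : z.length = j * (m + 1)) :
    ∀ k, k ≤ m + 1 → ∃ p : Str, p.length = k ∧ f^[k] z = z ++ p ∧
      SS A m t z [] ≤ 2 ^ k * SS A m t z p := by
  intro k
  induction k with
  | zero => intro _; exact ⟨[], rfl, by simp, by simp⟩
  | succ k ih =>
    intro hk
    obtain ⟨p, hp, hfp, hS⟩ := ih (by omega)
    refine ⟨p ++ [ans A m t (z ++ p)], by simp [hp], ?_, ?_⟩
    · rw [Function.iterate_succ_apply', hfp, hf, List.append_assoc]
    · have h := ans_step A m t j z p hz (by omega)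
      calc SS A m t z [] ≤ 2 ^ k * SS A m t z p := hS
        _ ≤ 2 ^ k * (2 * SS A m t z (p ++ [ans A m t (z ++ p)])) := Nat.mul_le_mul_left _ h
        _ = 2 ^ (k + 1) * SS A m t z (p ++ [ans A m t (z ++ p)]) := by ring

theorem SS_full (A : Str → Str → Bool) (m t : ℕ) (z v : Str) (hv : v.length = m + 1) :
    SS A m t z v = cK A m z v ^ t := by
  unfold SS
  rw [Finset.sum_eq_single v]
  · rw [List.take_length, if_pos rfl]
  · intro w hw hne
    have hw' : w.length = m + 1 := mem_bsl.1 hw
    rw [if_neg]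
    rw [hv, ← hw', List.take_length]
    exact hne
  · intro h
    exact absurd (mem_bsl.2 hv) h

theorem SS_nil (A : Str → Str → Bool) (m t : ℕ) (z : Str) :
    SS A m t z [] = ∑ v ∈ bsl (m + 1), cK A m z v ^ t := by
  unfold SS
  simp

theorem SS_ge (A : Str → Str → Bool) (m t : ℕ) (z : Str)
    (hNo : ∀ us : List Str, us.length = t → (∀ u ∈ us, u.length = m) →
      ∃ v : Str, v.length = m ∧ ∀ u ∈ us, A u v = false) :
    2 * cY A m z ^ t ≤ SS A m t z [] := by
  classical
  rw [SS_nil]
  have hcov : (Fintype.piFinset (fun _ : Fin t => Yf A m z)) ×ˢ (Finset.univ : Finset Bool) ⊆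
      (bsl (m + 1)).biUnion (fun v => (Fintype.piFinset (fun _ : Fin t => Kf A m z v)) ×ˢ
        ({v.getD m false} : Finset Bool)) := by
    rintro ⟨g, b⟩ hg
    rw [Finset.mem_product] at hg
    have hg1 := Fintype.mem_piFinset.1 hg.1
    have hlen : ∀ i, (g i).length = m := fun i => mem_bsl.1 (Finset.mem_filter.1 (hg1 i)).1
    obtain ⟨v, hv, hA⟩ := hNo (List.ofFn g) (by simp) (by
      intro u hu
      rw [List.mem_ofFn] at hu
      obtain ⟨i, rfl⟩ := hu
      exact hlen i)
    rw [Finset.mem_biUnion]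
    refine ⟨v ++ [b], mem_bsl.2 (by simp [hv]), ?_⟩
    rw [Finset.mem_product]
    refine ⟨?_, ?_⟩
    · rw [Fintype.mem_piFinset]
      intro i
      unfold Kf
      rw [Finset.mem_filter]
      refine ⟨mem_bsl.2 (hlen i), ?_⟩
      have e : (v ++ [b]).take m = v := by rw [← hv]; exact List.take_left
      have h1 : inY A m z (g i) = true := (Finset.mem_filter.1 (hg1 i)).2
      have h2 : A (g i) v = false := hA (g i) (by rw [List.mem_ofFn]; exact ⟨i, rfl⟩)
      show (inY A m z (g i) && !(A (g i) ((v ++ [b]).take m))) = true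
      rw [e, h1, h2]; rfl
    · rw [Finset.mem_singleton]
      show b = (v ++ [b]).getD m false
      rw [← hv]
      simp [List.getD]
  have h1 := Finset.card_le_card hcov
  have h2 := le_trans h1 Finset.card_biUnion_le
  rw [Finset.card_product, Fintype.card_piFinset] at h2
  simp only [Finset.prod_const, Finset.card_univ, Fintype.card_fin, Fintype.card_bool,
    Finset.card_product, Fintype.card_piFinset, Finset.card_singleton, mul_one] at h2
  simp only [cK_eq, cY_eq]
  linarith [h2]

theorem cY_split (A : Str → Str → Bool) (m j : ℕ) (z v : Str) (hz : z.length = j * (m + 1))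
    (hv : v.length = m + 1) : cY A m (z ++ v) + cK A m z v = cY A m z := by
  rw [cY_eq, cY_eq, cK_eq]
  have e1 : Yf A m (z ++ v) = (Yf A m z).filter (fun u => A u (v.take m) = true) := by
    ext u
    simp only [Yf, Finset.mem_filter, inY_block A m j z v hz hv, Bool.and_eq_true]
    tauto
  have e2 : Kf A m z v = (Yf A m z).filter (fun u => ¬ A u (v.take m) = true) := by
    ext u
    simp only [Yf, Kf, Finset.mem_filter, Bool.and_eq_true, Bool.not_eq_true',
      Bool.not_eq_true]
    tauto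
  rw [e1, e2]
  exact Finset.card_filter_add_card_filter_not (fun u => A u (v.take m) = true)

theorem one_block (A : Str → Str → Bool) (m t d j : ℕ) (ht : 1 ≤ t)
    (hmD : 2 ^ m ≤ (d + 1) ^ t) (f : Str → Str) (hf : ∀ z, f z = z ++ [ans A m t z])
    (hNo : ∀ us : List Str, us.length = t → (∀ u ∈ us, u.length = m) →
      ∃ v : Str, v.length = m ∧ ∀ u ∈ us, A u v = false)
    (z : Str) (hz : z.length = j * (m + 1)) :
    ∃ v : Str, v.length = m + 1 ∧ f^[m + 1] z = z ++ v ∧
      (d + 1) * cY A m (z ++ v) ≤ d * cY A m z := by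
  obtain ⟨v, hv, hfv, hS⟩ := run_block A m t j f hf z hz (m + 1) le_rfl
  refine ⟨v, hv, hfv, ?_⟩
  rw [SS_full A m t z v hv] at hS
  have h1 := SS_ge A m t z hNo
  have h2 : cY A m z ^ t ≤ 2 ^ m * cK A m z v ^ t := by
    have h3 : 2 * cY A m z ^ t ≤ 2 * (2 ^ m * cK A m z v ^ t) := by
      calc 2 * cY A m z ^ t ≤ 2 ^ (m + 1) * cK A m z v ^ t := le_trans h1 hS
        _ = 2 * (2 ^ m * cK A m z v ^ t) := by ring
    exact Nat.le_of_mul_le_mul_left h3 (by norm_num)
  have h3 : cY A m z ^ t ≤ ((d + 1) * cK A m z v) ^ t := by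
    rw [mul_pow]
    exact le_trans h2 (Nat.mul_le_mul_right _ hmD)
  have h4 : cY A m z ≤ (d + 1) * cK A m z v :=
    (Nat.pow_le_pow_iff_left (by omega)).1 h3
  have h5 := cY_split A m j z v hz hv
  nlinarith [h4, h5]

theorem many_blocks (A : Str → Str → Bool) (m t d : ℕ) (ht : 1 ≤ t)
    (hmD : 2 ^ m ≤ (d + 1) ^ t) (f : Str → Str) (hf : ∀ z, f z = z ++ [ans A m t z])
    (hNo : ∀ us : List Str, us.length = t → (∀ u ∈ us, u.length = m) →
      ∃ v : Str, v.length = m ∧ ∀ u ∈ us, A u v = false) (T : ℕ) :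
    (f^[T * (m + 1)] []).length = T * (m + 1) ∧
      (d + 1) ^ T * cY A m (f^[T * (m + 1)] []) ≤ d ^ T * cY A m [] := by
  induction T with
  | zero => simp
  | succ T ih =>
    obtain ⟨hl, hc⟩ := ih
    obtain ⟨v, hv, hfv, hs⟩ := one_block A m t d T ht hmD f hf hNo _ hl
    have e : f^[(T + 1) * (m + 1)] [] = f^[T * (m + 1)] [] ++ v := by
      rw [← hfv, ← Function.iterate_add_apply]
      congr 1
      ring_nf
    rw [e]
    refine ⟨by rw [List.length_append, hl, hv]; ring, ?_⟩
    calc (d + 1) ^ (T + 1) * cY A m (f^[T * (m + 1)] [] ++ v)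
        = (d + 1) ^ T * ((d + 1) * cY A m (f^[T * (m + 1)] [] ++ v)) := by ring
      _ ≤ (d + 1) ^ T * (d * cY A m (f^[T * (m + 1)] [])) := Nat.mul_le_mul_left _ hs
      _ = d * ((d + 1) ^ T * cY A m (f^[T * (m + 1)] [])) := by ring
      _ ≤ d * (d ^ T * cY A m []) := Nat.mul_le_mul_left _ hc
      _ = d ^ (T + 1) * cY A m [] := by ring

theorem bern (d n : ℕ) : d ^ (n + 1) + (n + 1) * d ^ n ≤ (d + 1) ^ (n + 1) := by
  induction n with
  | zero => simp
  | succ n ih =>
    calc d ^ (n + 1 + 1) + (n + 1 + 1) * d ^ (n + 1)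
        ≤ (d + 1) * (d ^ (n + 1) + (n + 1) * d ^ n) := by
          have : (d + 1) * (d ^ (n + 1) + (n + 1) * d ^ n) =
            d ^ (n + 1 + 1) + (n + 1 + 1) * d ^ (n + 1) + (n + 1) * d ^ n := by ring
          rw [this]; omega
      _ ≤ (d + 1) * (d + 1) ^ (n + 1) := Nat.mul_le_mul_left _ ih
      _ = (d + 1) ^ (n + 1 + 1) := by ring

theorem two_mul_pow_le (d : ℕ) : 2 * d ^ (d + 1) ≤ (d + 1) ^ (d + 1) := by
  have h := bern d d
  have h2 : (d + 1) * d ^ d = d ^ (d + 1) + d ^ d := by ring
  omega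

theorem iter_ext (A : Str → Str → Bool) (m t : ℕ) (f : Str → Str)
    (hf : ∀ z, f z = z ++ [ans A m t z]) (z : Str) (n : ℕ) : ∃ p : Str, f^[n] z = z ++ p := by
  induction n with
  | zero => exact ⟨[], by simp⟩
  | succ n ih =>
    obtain ⟨p, hp⟩ := ih
    exact ⟨p ++ [ans A m t (z ++ p)], by
      rw [Function.iterate_succ_apply', hp, hf, List.append_assoc]⟩

theorem greedy (A : Str → Str → Bool) (m t D W : ℕ) (ht : 1 ≤ t) (hD : 1 ≤ D) (hmD : 2 ^ m ≤ D ^ t)
    (f : Str → Str) (hf : ∀ z, f z = z ++ [ans A m t z]) (hW : D * (m + 1) * (m + 1) ≤ W)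
    (hNo : ∀ us : List Str, us.length = t → (∀ u ∈ us, u.length = m) →
      ∃ v : Str, v.length = m ∧ ∀ u ∈ us, A u v = false) :
    ∀ u : Str, u.length = m → inY A m (f^[W] []) u = false := by
  obtain ⟨d, rfl⟩ : ∃ d, D = d + 1 := ⟨D - 1, by omega⟩
  have hM := (many_blocks A m t d ht hmD f hf hNo ((d + 1) * (m + 1))).2
  have hY0 : cY A m [] ≤ 2 ^ m := by
    rw [cY_eq, ← card_bsl m]
    exact Finset.card_filter_le _ _
  have hzero : cY A m (f^[(d + 1) * (m + 1) * (m + 1)] []) = 0 := by
    by_contra hne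
    have h1 : 1 ≤ cY A m (f^[(d + 1) * (m + 1) * (m + 1)] []) := Nat.one_le_iff_ne_zero.2 hne
    have h2 : (d + 1) ^ ((d + 1) * (m + 1)) ≤ d ^ ((d + 1) * (m + 1)) * 2 ^ m := by
      calc (d + 1) ^ ((d + 1) * (m + 1)) = (d + 1) ^ ((d + 1) * (m + 1)) * 1 := by ring
        _ ≤ (d + 1) ^ ((d + 1) * (m + 1)) * cY A m (f^[(d + 1) * (m + 1) * (m + 1)] []) :=
          Nat.mul_le_mul_left _ h1
        _ ≤ d ^ ((d + 1) * (m + 1)) * cY A m [] := hM
        _ ≤ d ^ ((d + 1) * (m + 1)) * 2 ^ m := Nat.mul_le_mul_left _ hY0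
    have h3 : 2 ^ (m + 1) * d ^ ((d + 1) * (m + 1)) ≤ (d + 1) ^ ((d + 1) * (m + 1)) := by
      rw [pow_mul, pow_mul, ← mul_pow]
      exact Nat.pow_le_pow_left (two_mul_pow_le d) _
    have h4 : 0 < (d + 1) ^ ((d + 1) * (m + 1)) := Nat.pow_pos (Nat.succ_pos d)
    have h5 : 2 ^ (m + 1) * d ^ ((d + 1) * (m + 1)) = 2 * (d ^ ((d + 1) * (m + 1)) * 2 ^ m) := by
      ring
    omega
  intro u hu
  by_contra hne
  have hT : inY A m (f^[W] []) u = true := by
    rcases h : inY A m (f^[W] []) u with _ | _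
    · exact absurd h hne
    · rfl
  obtain ⟨p, hp⟩ := iter_ext A m t f hf (f^[(d + 1) * (m + 1) * (m + 1)] [])
    (W - (d + 1) * (m + 1) * (m + 1))
  rw [← Function.iterate_add_apply, Nat.sub_add_cancel hW] at hp
  rw [hp] at hT
  have hmem : u ∈ Yf A m (f^[(d + 1) * (m + 1) * (m + 1)] []) := by
    unfold Yf
    rw [Finset.mem_filter]
    exact ⟨mem_bsl.2 hu, inY_anti A m _ p u hT⟩
  rw [cY_eq, Finset.card_eq_zero] at hzero
  rw [hzero] at hmem
  exact absurd hmem (Finset.notMem_empty u)

end Pool.Agent.Lib.Pf91712q
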