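import Pool.Agent.Lib.Pf91712q.Mat

/-!
The program of the algorithm.
-/

set_option autoImplicit false

namespace Pool.Agent.Lib.Pf91712q

open Pool.Agent.Lib.Pa76659 (Str Lang PO Prog Halts accepts inp)
open Pool.Agent.Lib.Pa76659G (pr on1 fst snd)
open Pool.Agent.Lib.Pa76659G.PC
open Pool.Agent.Lib.Pf91712 (bitsOf)
open Pool.Agent.Lib.Pf91712p (lg)

/-- A computable predicate is decided by a machine; the oracle may depend on the argument. -/
theorem machine {α : Type*} {orc : α → Lang} {w : α → Str} {L : α → Bool}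
    (h : PolyB orc (fun _ => True) [w] L) : ∃ (M : Prog) (p : Polynomial ℕ), ∀ a,
      Halts (orc a) M (inp (w a)) (p.eval (w a).length) ∧
      accepts (orc a) M (inp (w a)) (p.eval (w a).length) = L a := by
  obtain ⟨P, p, hP⟩ := h
  refine ⟨.seq P (.seq (clear 0) (move 1 0 2)), p + 2 * Polynomial.X + 20, fun a => ?_⟩
  obtain ⟨n, hn, hr⟩ := hP a trivial
  simp only [vals_cons, vals_nil, total_cons, total_nil, Nat.add_zero, List.cons_append,
    List.nil_append] at hn hr
  have h1 := run_clear (O := orc a) 0 (R [w a, [L a]])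
  have e1 : Function.update (R [w a, [L a]]) 0 [] = R [[], [L a]] := R_update [] (w a) [] [[L a]]
  have e2 : R [w a, [L a]] 0 = w a := R_length [] (w a) [[L a]]
  rw [e1, e2] at h1
  have h2 := run_move (O := orc a) (r := 1) (s := 0) (tmp := 2) (by omega) (by omega) (by omega)
    (R [[], [L a]]) (by rw [R_of_ge]; simp)
  have e3 : R [[], [L a]] 1 = [L a] := R_length [[]] [L a] []
  have e4 : R [[], [L a]] 0 = [] := R_length [] [] [[L a]]
  have e5 : Function.update (R [[], [L a]]) 1 [] = R [[], []] := R_update [[]] [L a] [] []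
  have e6 : Function.update (R [[], []]) 0 [L a] = R [[L a], []] := R_update [] [] [L a] [[]]
  rw [e3, e4, e5, List.append_nil, e6] at h2
  have h3 := (Run.seq hr (Run.seq h1 h2)).exec
  have e7 : R [w a] = inp (w a) := by
    funext i
    rcases i with _ | i
    · simp [R, inp]
    · simp [R, inp]
  rw [e7] at h3
  have h4 := h3.halts (N := (p + 2 * Polynomial.X + 20).eval (w a).length) (by
    simp only [Polynomial.eval_add, Polynomial.eval_mul, Polynomial.eval_X, Polynomial.eval_ofNat,
      List.length_singleton]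
    omega)
  refine ⟨h4.1, ?_⟩
  rw [h4.2]
  have e8 : R [[L a], []] 0 = [L a] := R_length [] [L a] [[]]
  rw [e8]
  cases L a <;> rfl

/-- the advice for the reduction -/
def advS (t h : ℕ → ℕ) (k : ℕ) : Str := pr (on1 k) (pr (on1 (h k)) (on1 (t k)))

/-- the query in terms of numbers -/
def qraw (x : Str) (k hh tt : ℕ) (md : Bool) (z : Str) : Str :=
  on1 k ++ false :: (on1 (((tt + 1) * hh + 3) * lg (pr x (md :: z)) - 1) ++
    false :: pr x (md :: z))

theorem qF_eq (t h : ℕ → ℕ) (x : Str) (k : ℕ) (md : Bool) (z : Str) :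
    qF t h x k md z = qraw x k (h k) (t k) md z := rfl

theorem q_poly {α : Type*} {orc : α → Lang} {D : α → Prop} {ctx : List (α → Str)}
    {x z : α → Str} {k hh tt : α → ℕ} (md : Bool)
    (hx : PolyC orc D ctx x) (hk : PolyN orc D ctx k) (hhh : PolyN orc D ctx hh)
    (htt : PolyN orc D ctx tt) (hz : PolyC orc D ctx z) :
    PolyC orc D ctx (fun a => qraw (x a) (k a) (hh a) (tt a) md (z a)) := by
  have hy : PolyC orc D ctx (fun a => pr (x a) (md :: z a)) := PolyC.pr hx (PolyC.cons md hz)
  have hN : PolyN orc D ctx (fun a => ((tt a + 1) * hh a + 3) * lg (pr (x a) (md :: z a)) - 1) :=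
    ((((htt.succ).mul hhh).add (PolyN.const 3)).mul (lg_poly hy)).sub (PolyN.const 1)
  exact PolyC.append hk (PolyC.cons false (PolyC.append hN (PolyC.cons false hy)))

/-- one step of the algorithm -/
def stp (F : Str → ℕ → ℕ) (t h : ℕ → ℕ) (x : Str) (k : ℕ) (z : Str) : Str :=
  z ++ [bitsOf F k (qF t h x k false z)]

/-- the number of the steps -/
def WW (h : ℕ → ℕ) (c : ℕ) (x : Str) (k : ℕ) : ℕ :=
  (x.length + 1) ^ c * (h k * x.length + 1) * (h k * x.length + 1)

theorem stp_length (F : Str → ℕ → ℕ) (t h : ℕ → ℕ) (x : Str) (k : ℕ) (i : ℕ) :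
    ((stp F t h x k)^[i] []).length = i := by
  induction i with
  | zero => rfl
  | succ i ih => rw [Function.iterate_succ_apply', stp, List.length_append, ih]; rfl

theorem prog (F : Str → ℕ → ℕ) (t h : ℕ → ℕ) (c : ℕ) : ∃ (M : Prog) (p : Polynomial ℕ), ∀ x k,
    Halts (bitsOf F k) M (inp (pr x (advS t h k))) (p.eval (pr x (advS t h k)).length) ∧
    accepts (bitsOf F k) M (inp (pr x (advS t h k))) (p.eval (pr x (advS t h k)).length) =
      bitsOf F k (qF t h x k true ((stp F t h x k)^[WW h c x k] [])) := by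
  let orc : Str × ℕ → Lang := fun a => bitsOf F a.2
  let w : Str × ℕ → Str := fun a => pr a.1 (advS t h a.2)
  have hw : PolyC orc (fun _ => True) [w] w := PolyC.var (by simp)
  have hx : PolyC orc (fun _ => True) [w] (fun a => a.1) :=
    (PolyC.fst hw).congr (fun a _ => by simp [w])
  have hs : PolyC orc (fun _ => True) [w] (fun a => advS t h a.2) :=
    (PolyC.snd hw).congr (fun a _ => by simp [w])
  have hk : PolyN orc (fun _ => True) [w] (fun a => a.2) :=
    (PolyC.fst hs).congr (fun a _ => by
      simp [advS, on1, una])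
  have hh : PolyN orc (fun _ => True) [w] (fun a => h a.2) :=
    (PolyC.fst (PolyC.snd hs)).congr (fun a _ => by
      simp [advS, on1, una])
  have ht : PolyN orc (fun _ => True) [w] (fun a => t a.2) :=
    (PolyC.snd (PolyC.snd hs)).congr (fun a _ => by
      simp [advS, on1, una])
  have hW : PolyN orc (fun _ => True) [w] (fun a => WW h c a.1 a.2) := by
    have h1 : PolyN orc (fun _ => True) [w] (fun a => h a.2 * a.1.length + 1) :=
      (hh.mul (PolyN.length hx)).add (PolyN.const 1)
    have h0 : PolyN orc (fun _ => True) [w] (fun a => a.1.length + 1) :=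
      (PolyN.length hx).add (PolyN.const 1)
    have h2 : PolyN orc (fun _ => True) [w] (fun a => (a.1.length + 1) ^ c) :=
      (h0.poly (Polynomial.X ^ c)).congr (fun a _ => by rw [Polynomial.eval_pow, Polynomial.eval_X])
    exact (h2.mul h1).mul h1
  have hL : ∀ {t' : Str × ℕ → Str}, PolyC orc (fun _ => True) [w] t' →
      PolyC (fun p : (Str × ℕ) × Str => orc p.1) (fun p => True)
        (lift [w] ++ [fun p => p.2]) (fun p => t' p.1) :=
    fun ht' => (PolyC.lift ht' (fun _ _ => trivial)).weakenRight _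
  have hg : PolyC (fun p : (Str × ℕ) × Str => orc p.1) (fun p => True)
      (lift [w] ++ [fun p => p.2]) (fun p => stp F t h p.1.1 p.1.2 p.2) := by
    have hz : PolyC (fun p : (Str × ℕ) × Str => orc p.1) (fun p => True)
      (lift [w] ++ [fun p => p.2]) (fun p => p.2) := PolyC.var (by simp)
    have hq := PolyC.query (q_poly false (hL hx) (hL hk) (hL hh) (hL ht) hz)
    exact PolyC.append hz hq
  have hi : PolyC orc (fun _ => True) [w]
      (fun a => (stp F t h a.1 a.2)^[WW h c a.1 a.2] []) := by
    obtain ⟨pW, hpW⟩ := PolyC.length_le hW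
    have hB : ∃ B : Polynomial ℕ, ∀ a : Str × ℕ, True → ∀ k, k ≤ WW h c a.1 a.2 →
        ((stp F t h a.1 a.2)^[k] []).length ≤ B.eval (total (vals [w] a)) := by
      refine ⟨pW, fun a ha k hk => ?_⟩
      have h1 := hpW a ha
      rw [un_length] at h1
      rw [stp_length]
      exact hk.trans h1
    exact PolyC.iter (orc := orc) (D := fun _ => True) (ctx := [w])
      (g := fun a z => stp F t h a.1 a.2 z) (t := fun _ => []) (n := fun a => WW h c a.1 a.2)
      hg PolyC.nil hW hB
  have hfin : PolyB orc (fun _ => True) [w] (fun a => bitsOf F a.2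
      (qF t h a.1 a.2 true ((stp F t h a.1 a.2)^[WW h c a.1 a.2] []))) :=
    PolyC.query (q_poly true hx hk hh ht hi)
  obtain ⟨M, p, hM⟩ := machine hfin
  exact ⟨M, p, fun x k => hM (x, k)⟩

end Pool.Agent.Lib.Pf91712q
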