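import Pool.Agent.Lib.Pf91712q.Cnt
import Pool.Agent.Lib.Pf91712q.Greedy
import Pool.Agent.Lib.Pf91712q.Prg
import Pool.Agent.Lib.Pf91712p.PosA

/-!
The list gap version of the parameterized `Σ₂` problem is fpt Turing reducible to `#W[P]`.
-/

set_option autoImplicit false

namespace Pool.Agent.Lib.Pf91712q

open Pool.Agent.Lib.Pa76659 (Str Lang PO Prog Halts accepts inp)
open Pool.Agent.Lib.Pa76659G (pr on1 fst snd)
open Pool.Agent.Lib.Pa76659G.PC
open Pool.Agent.Lib.Pf91712 (bitsOf unary)
open Pool.Agent.Lib.Pf91712p (lg)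

theorem unary_on1 (j : ℕ) (v : Str) : unary (on1 j ++ false :: v) = (j, v) := by
  induction j with
  | zero => simp [on1, unary]
  | succ j ih =>
    have h1 : on1 (j + 1) ++ false :: v = true :: (on1 j ++ false :: v) := by
      simp [on1, List.replicate_succ]
    rw [h1, unary, ih]

theorem BF_eq (B : Lang) (t h : ℕ → ℕ) (π : ℕ → Str) (x : Str) (k : ℕ) (md : Bool) (z g : Str) :
    BF B (pr (pr x (md :: z)) (pr (advF t h π k) g)) =
      Psi (relA B x (π k)) (h k * lg x) (t k) md z g := by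
  simp [BF, advF, on1]

theorem bits_eq (B : Lang) (t h : ℕ → ℕ) (π : ℕ → Str) (x : Str) (k : ℕ) (md : Bool) (z : Str) :
    bitsOf (FF t h π B) k (qF t h x k md z) =
      (Nat.card {g : Str // g.length = hF t h k * lg (pr x (md :: z)) ∧
        Psi (relA B x (π k)) (h k * lg x) (t k) md z g = true}).testBit
          (hF t h k * lg (pr x (md :: z)) - 1) := by
  rw [bitsOf, qF, unary_on1, unary_on1]
  simp only [le_refl, decide_true, Bool.true_and, FF, BF_eq]

theorem hN_le (t h : ℕ → ℕ) (x : Str) (k : ℕ) (md : Bool) (z : Str) :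
    (t k + 1) * (h k * lg x) + 3 ≤ hF t h k * lg (pr x (md :: z)) := by
  have hl : (pr x (md :: z)).length = 2 * x.length + (z.length + 1) + 1 := by
    rw [Pool.Agent.Lib.Pa76659G.pr_length]
    simp only [List.length_cons]
    omega
  have h1 : lg x ≤ lg (pr x (md :: z)) := Nat.log_mono_right (by rw [hl]; omega)
  have h2 : 1 ≤ lg (pr x (md :: z)) := by
    rw [lg, Nat.le_log_iff_pow_le (by norm_num) (by rw [hl]; omega), hl]
    omega
  have h4 : hF t h k * lg (pr x (md :: z)) = (t k + 1) * h k * lg (pr x (md :: z)) +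
      3 * lg (pr x (md :: z)) := by
    rw [hF, Nat.add_mul]
  rw [h4]
  have h3 : (t k + 1) * (h k * lg x) ≤ (t k + 1) * h k * lg (pr x (md :: z)) := by
    rw [← mul_assoc]
    exact Nat.mul_le_mul_left _ h1
  omega

theorem main (O : Lang) (h t : ℕ → ℕ) (π : ℕ → Str) (B : Lang) (c : ℕ)
    (hh : Computable h) (htc : Computable t) (ht1 : ∀ k, 1 ≤ t k) (hc : ∀ k, h k ≤ c * t k)
    (hπ : Computable π) (hB : B ∈ PO O) :
    ∃ F ∈ SharpWP O, FptTuring F (YesInst h π B) (NoInst t h π B) := by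
  have hon : ∀ {f : ℕ → ℕ}, Computable f → Computable (fun k => on1 (f k)) := fun hf =>
    Pool.Agent.Lib.Pf91712p.computable_on1.comp hf
  have hpr : ∀ {f g : ℕ → Str}, Computable f → Computable g → Computable (fun k => pr (f k) (g k)) :=
    fun hf hg => Pool.Agent.Lib.Pf91712p.PosAAux.primrec_pr.to_comp.comp hf hg
  have hadv : Computable (advF t h π) := hpr (hpr hπ (hon hh)) (hon htc)
  have hhF : Computable (hF t h) := by
    have h1 : Computable (fun k => (t k + 1) * h k) :=
      Primrec.nat_mul.to_comp.comp (Primrec.succ.to_comp.comp htc) hh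
    exact Primrec.nat_add.to_comp.comp h1 (Computable.const 3)
  refine ⟨FF t h π B, ⟨hF t h, advF t h π, BF B, hhF, hadv, BF_mem hB, fun x k => rfl⟩, ?_⟩
  obtain ⟨M, p, hM⟩ := prog (FF t h π B) t h c
  refine ⟨M, p, fun k => k, advS t h, Computable.id, hpr (hon Computable.id) (hpr (hon hh) (hon htc)),
    fun x k => ⟨(hM x k).1, ?_, ?_⟩⟩
  all_goals
    rw [(hM x k).2, bits_eq, bit_true _ _ _ _ _ (ht1 k) (hN_le t h x k true _)]
  · rintro ⟨u, hu, hv⟩
    rw [decide_eq_true_eq, cY, natCard_eq, Nat.one_le_iff_ne_zero, Finset.card_ne_zero]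
    refine ⟨u, Finset.mem_filter.2 ⟨mem_bsl.2 hu, ?_⟩⟩
    rw [inY, decide_eq_true_eq]
    intro i hi
    refine hv _ ?_
    have h1 := (Nat.le_div_iff_mul_le (Nat.succ_pos _)).1 (Nat.succ_le_of_lt hi)
    rw [List.length_take, List.length_drop]
    have h2 : i.succ * (h k * lg x).succ = i * (h k * lg x + 1) + (h k * lg x + 1) := by
      rw [Nat.succ_eq_add_one, Nat.succ_eq_add_one]
      ring
    rw [h2] at h1
    omega
  · intro hno
    rw [decide_eq_false_iff_not, not_le, Nat.lt_one_iff]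
    have hlgx : lg x ≤ x.length := Nat.log_le_self 2 _
    suffices hs : ∀ u : Str, u.length = h k * lg x → inY (relA B x (π k)) (h k * lg x)
        ((stp (FF t h π B) t h x k)^[WW h c x k] []) u = false by
      rw [cY, natCard_eq, Finset.card_eq_zero, Finset.filter_eq_empty_iff]
      intro u hu
      rw [hs u (mem_bsl.1 hu)]
      simp
    refine greedy (relA B x (π k)) (h k * lg x) (t k) ((x.length + 1) ^ c) (WW h c x k)
      (ht1 k) (Nat.one_le_pow _ _ (by omega)) ?_ _ (fun z => ?_) ?_ hno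
    · have h1 : 2 ^ lg x ≤ x.length + 1 := by
        rcases Nat.eq_zero_or_pos x.length with h0 | h0
        · rw [lg, h0]; simp
        · exact (Nat.pow_log_le_self 2 (by omega)).trans (by omega)
      calc 2 ^ (h k * lg x) = (2 ^ lg x) ^ h k := by rw [← pow_mul, mul_comm]
        _ ≤ (x.length + 1) ^ h k := Nat.pow_le_pow_left h1 _
        _ ≤ (x.length + 1) ^ (c * t k) := Nat.pow_le_pow_right (by omega) (hc k)
        _ = ((x.length + 1) ^ c) ^ t k := by rw [pow_mul]
    · rw [stp, bits_eq, bit_false _ _ _ _ _ (hN_le t h x k false z)]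
    · rw [WW]
      have h2 : h k * lg x + 1 ≤ h k * x.length + 1 :=
        Nat.add_le_add_right (Nat.mul_le_mul_left _ hlgx) 1
      exact Nat.mul_le_mul (Nat.mul_le_mul_left _ h2) h2

end Pool.Agent.Lib.Pf91712q
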