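import Pool.Agent.Lib.Pf91712q.Mat
import Pool.Agent.Lib.Pf91712q.Comp
import Pool.Agent.Lib.Pf91712p.PosA

/-!
If the ratio of the number of blocks and the list size is unbounded then the list gap problem is as
hard as all problems with two quantifier blocks.
-/

set_option autoImplicit false

namespace Pool.Agent.Lib.Pf91712q

open Pool.Agent.Lib.Pa76659 (Str Lang PO)
open Pool.Agent.Lib.Pa76659G (pr on1 fst snd)
open Pool.Agent.Lib.Pa76659G.PC
open Pool.Agent.Lib.Pf91712p (lg Alt AltProb AltClass)

/-- the new relation: the first `m₀` bits of `u` pass the tests given by the first `t` blocks of `m₀`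
bits of `v` -/
def BH (B : Lang) (w : Str) : Bool :=
  decide (∀ i < (fst (snd (fst (snd w)))).length,
    relA B (fst w) (fst (fst (fst (snd w))))
      ((snd (snd w)).take ((snd (fst (fst (snd w)))).length * lg (fst w)))
      (((snd (snd w)).drop ((snd (snd (fst (snd w)))).length * lg (fst w) +
        i * ((snd (fst (fst (snd w)))).length * lg (fst w)))).take
          ((snd (fst (fst (snd w)))).length * lg (fst w))) = true)

theorem BH_mem {O B : Lang} (hB : B ∈ PO O) : BH B ∈ PO O := by
  refine mem_PO ?_
  have hw : PolyC (fun _ : Str => O) (fun _ => True) [fun x => x] (fun w => w) :=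
    PolyC.var (by simp)
  have hx := PolyC.fst hw
  have hP := PolyC.fst (PolyC.snd hw)
  have hs := PolyC.snd (PolyC.snd hw)
  have ha := PolyC.fst (PolyC.fst hP)
  have hm0 := (PolyN.length (PolyC.snd (PolyC.fst hP))).mul (lg_poly hx)
  have ht := PolyN.length (PolyC.fst (PolyC.snd hP))
  have hm1 := (PolyN.length (PolyC.snd (PolyC.snd hP))).mul (lg_poly hx)
  refine PolyB.forall_lt
    (φ := fun p : Str × ℕ => relA B (fst p.1) (fst (fst (fst (snd p.1))))
      ((snd (snd p.1)).take ((snd (fst (fst (snd p.1)))).length * lg (fst p.1)))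
      (((snd (snd p.1)).drop ((snd (snd (fst (snd p.1)))).length * lg (fst p.1) +
        p.2 * ((snd (fst (fst (snd p.1)))).length * lg (fst p.1)))).take
          ((snd (fst (fst (snd p.1)))).length * lg (fst p.1)))) ht ?_
  refine rel_poly hB (up (n := fun a : Str => (fst (snd (fst (snd a)))).length) hx)
    (up (n := fun a : Str => (fst (snd (fst (snd a)))).length) ha)
    (PolyC.take (up (n := fun a : Str => (fst (snd (fst (snd a)))).length) hs)
      (upN (n := fun a : Str => (fst (snd (fst (snd a)))).length) hm0))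
    (PolyC.take (PolyC.drop (up (n := fun a : Str => (fst (snd (fst (snd a)))).length) hs)
      ((upN (n := fun a : Str => (fst (snd (fst (snd a)))).length) hm1).add
        (PolyN.mul (idx (orc := fun _ : Str => O) (D := fun _ => True) (ctx := [fun x => x])
          (n := fun a : Str => (fst (snd (fst (snd a)))).length))
          (upN (n := fun a : Str => (fst (snd (fst (snd a)))).length) hm0))))
      (upN (n := fun a : Str => (fst (snd (fst (snd a)))).length) hm0))

/-- the new advice -/
def advH (t h h0 inv : ℕ → ℕ) (π : ℕ → Str) (k : ℕ) : Str :=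
  pr (pr (π (inv k)) (on1 (h0 (inv k)))) (pr (on1 (t k)) (on1 (h k)))

theorem BH_eq (B : Lang) (t h h0 inv : ℕ → ℕ) (π : ℕ → Str) (x : Str) (k : ℕ) (s : Str) :
    BH B (pr x (pr (advH t h h0 inv π k) s)) = decide (∀ i < t k,
      relA B x (π (inv k)) (s.take (h0 (inv k) * lg x))
        ((s.drop (h k * lg x + i * (h0 (inv k) * lg x))).take (h0 (inv k) * lg x)) = true) := by
  simp [BH, advH, on1]

theorem flatten_block (m : ℕ) (r : Str) : ∀ (l : List Str), (∀ u ∈ l, u.length = m) →
    ∀ (j : ℕ) (hj : j < l.length), ((l.flatten ++ r).drop (j * m)).take m = l[j]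
  | [], _, j, hj => by simp at hj
  | u :: l, hl, 0, _ => by
    have h1 : u.length = m := hl u List.mem_cons_self
    rw [Nat.zero_mul, List.drop_zero, List.flatten_cons, List.append_assoc, List.take_append,
      List.getElem_cons_zero, h1, Nat.sub_self, List.take_zero, List.append_nil,
      List.take_of_length_le h1.le]
  | u :: l, hl, j + 1, hj => by
    have h1 : u.length = m := hl u List.mem_cons_self
    have h2 := flatten_block m r l (fun v hv => hl v (List.mem_cons_of_mem _ hv)) j
      (by simpa using hj)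
    rw [List.getElem_cons_succ, ← h2, List.flatten_cons, List.append_assoc, List.drop_append,
      List.drop_eq_nil_of_le (by rw [h1]; nlinarith), List.nil_append]
    congr 2
    rw [h1, Nat.add_mul, Nat.one_mul, Nat.add_sub_cancel]

theorem flatten_len (m : ℕ) : ∀ (l : List Str), (∀ u ∈ l, u.length = m) →
    l.flatten.length = l.length * m
  | [], _ => by simp
  | u :: l, hl => by
    rw [List.flatten_cons, List.length_append, hl u List.mem_cons_self,
      flatten_len m l (fun v hv => hl v (List.mem_cons_of_mem _ hv)), List.length_cons]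
    ring

theorem yes_red (B : Lang) (t h h0 inv : ℕ → ℕ) (π : ℕ → Str) (x : Str) (k : ℕ)
    (ht1 : 1 ≤ t k) (hk : h0 (inv k) * t k ≤ h k)
    (hy : ∃ u : Str, u.length = h0 (inv k) * lg x ∧ ∀ v : Str, v.length = h0 (inv k) * lg x →
      relA B x (π (inv k)) u v = true) : YesInst h (advH t h h0 inv π) (BH B) x k := by
  obtain ⟨u, hu, hv⟩ := hy
  have hm : h0 (inv k) * lg x * t k ≤ h k * lg x := by
    calc h0 (inv k) * lg x * t k = h0 (inv k) * t k * lg x := by ring
      _ ≤ h k * lg x := Nat.mul_le_mul_right _ hk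
  have hm0 : h0 (inv k) * lg x ≤ h k * lg x := le_trans (Nat.le_mul_of_pos_right _ ht1) hm
  refine ⟨u ++ List.replicate (h k * lg x - h0 (inv k) * lg x) false, ?_, fun v hvl => ?_⟩
  · rw [List.length_append, List.length_replicate, hu]
    omega
  · rw [BH_eq, decide_eq_true_eq]
    intro i hi
    have h1 : (u ++ List.replicate (h k * lg x - h0 (inv k) * lg x) false ++ v).take
        (h0 (inv k) * lg x) = u := by
      rw [List.append_assoc, List.take_append, hu, Nat.sub_self, List.take_zero, List.append_nil,
        List.take_of_length_le hu.le]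
    have h2 : (u ++ List.replicate (h k * lg x - h0 (inv k) * lg x) false).length = h k * lg x := by
      rw [List.length_append, List.length_replicate, hu]
      omega
    rw [h1]
    refine hv _ ?_
    rw [List.length_take, List.length_drop, List.length_append, h2, hvl]
    have h3 : h0 (inv k) * lg x * (i + 1) ≤ h0 (inv k) * lg x * t k :=
      Nat.mul_le_mul_left _ hi
    have h4 : h0 (inv k) * lg x * (i + 1) = i * (h0 (inv k) * lg x) + h0 (inv k) * lg x := by ring
    omega

theorem no_red (B : Lang) (t h h0 inv : ℕ → ℕ) (π : ℕ → Str) (x : Str) (k : ℕ)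
    (ht1 : 1 ≤ t k) (hk : h0 (inv k) * t k ≤ h k)
    (hy : ¬ ∃ u : Str, u.length = h0 (inv k) * lg x ∧ ∀ v : Str, v.length = h0 (inv k) * lg x →
      relA B x (π (inv k)) u v = true) : NoInst t h (advH t h h0 inv π) (BH B) x k := by
  intro us hus hul
  have hm : h0 (inv k) * lg x * t k ≤ h k * lg x := by
    calc h0 (inv k) * lg x * t k = h0 (inv k) * t k * lg x := by ring
      _ ≤ h k * lg x := Nat.mul_le_mul_right _ hk
  have hm0 : h0 (inv k) * lg x ≤ h k * lg x := le_trans (Nat.le_mul_of_pos_right _ ht1) hm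
  have hg : ∀ u : Str, ∃ v : Str, v.length = h0 (inv k) * lg x ∧ (u.length = h0 (inv k) * lg x →
      relA B x (π (inv k)) u v = false) := by
    intro u
    by_cases hu : u.length = h0 (inv k) * lg x
    · push Not at hy
      obtain ⟨v, hv1, hv2⟩ := hy u hu
      exact ⟨v, hv1, fun _ => by simpa using hv2⟩
    · exact ⟨List.replicate (h0 (inv k) * lg x) false, by simp, fun h => absurd h hu⟩
  choose g hg1 hg2 using hg
  set l : List Str := us.map (fun u => g (u.take (h0 (inv k) * lg x))) with hl
  have hll : ∀ u ∈ l, u.length = h0 (inv k) * lg x := by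
    intro u hu
    rw [hl, List.mem_map] at hu
    obtain ⟨w, _, rfl⟩ := hu
    exact hg1 _
  have hlen : l.length = t k := by rw [hl, List.length_map, hus]
  have hfl := flatten_len _ l hll
  refine ⟨l.flatten ++ List.replicate (h k * lg x - t k * (h0 (inv k) * lg x)) false, ?_, ?_⟩
  · rw [List.length_append, List.length_replicate, hfl, hlen]
    have : t k * (h0 (inv k) * lg x) = h0 (inv k) * lg x * t k := mul_comm _ _
    omega
  · intro u hu
    rw [BH_eq, decide_eq_false_iff_not]
    intro hall
    obtain ⟨j, hj, rfl⟩ := List.mem_iff_getElem.1 hu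
    have h1 := hall j (by omega)
    have hjl := hul _ hu
    have h2 : (us[j] ++ (l.flatten ++ List.replicate
        (h k * lg x - t k * (h0 (inv k) * lg x)) false)).drop
        (h k * lg x + j * (h0 (inv k) * lg x)) =
        (l.flatten ++ List.replicate (h k * lg x - t k * (h0 (inv k) * lg x)) false).drop
          (j * (h0 (inv k) * lg x)) := by
      rw [List.drop_append, hjl, List.drop_eq_nil_of_le (by rw [hjl]; omega), List.nil_append,
        Nat.add_sub_cancel_left]
    rw [h2, flatten_block _ _ l hll j (by omega), List.take_append_of_le_length (by omega)] at h1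
    have h3 : l[j]'(by omega) = g (us[j].take (h0 (inv k) * lg x)) := by
      simp [hl]
    rw [h3, hg2 _ (by rw [List.length_take, hjl]; omega)] at h1
    exact absurd h1 (by simp)

theorem hard (O : Lang) (h t : ℕ → ℕ) (hh : Computable h) (ht : Computable t)
    (ht1 : ∀ k, 1 ≤ t k) (hub : ∀ c, ∃ k, c * t k < h k)
    (hyp : ∀ (π : ℕ → Str) (B : Lang), Computable π → B ∈ PO O →
      ∃ F ∈ SharpWP O, FptTuring F (YesInst h π B) (NoInst t h π B)) :
    ∀ L ∈ AltClass O 2, ∃ F ∈ SharpWP O, FptTuring F L (fun x k => ¬ L x k) := by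
  rintro L ⟨h0, π0, B0, hh0, hπ0, hB0, hL⟩
  obtain ⟨κ, inv, hκ, hinv, hik, hhk⟩ := exists_kappa h t h0 hh ht hh0 ht1 hub
  have hon : ∀ {f : ℕ → ℕ}, Computable f → Computable (fun k => on1 (f k)) := fun hf =>
    Pool.Agent.Lib.Pf91712p.computable_on1.comp hf
  have hpr : ∀ {f g : ℕ → Str}, Computable f → Computable g → Computable (fun k => pr (f k) (g k)) :=
    fun hf hg => Pool.Agent.Lib.Pf91712p.PosAAux.primrec_pr.to_comp.comp hf hg
  have hadv : Computable (advH t h h0 inv π0) :=
    hpr (hpr (hπ0.comp hinv) (hon (hh0.comp hinv))) (hpr (hon ht) (hon hh))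
  obtain ⟨F, hF, M, p, g, σ, hg, hσ, hM⟩ := hyp (advH t h h0 inv π0) (BH B0) hadv (BH_mem hB0)
  refine ⟨F, hF, M, p, fun k => g (κ k), fun k => σ (κ k), hg.comp hκ, hσ.comp hκ, fun x k => ?_⟩
  obtain ⟨h1, h2, h3⟩ := hM x (κ k)
  have hk : h0 (inv (κ k)) * t (κ k) ≤ h (κ k) := by
    rw [hik]
    exact hhk k
  have hLk : L x k ↔ ∃ u : Str, u.length = h0 (inv (κ k)) * lg x ∧
      ∀ v : Str, v.length = h0 (inv (κ k)) * lg x → relA B0 x (π0 (inv (κ k))) u v = true := by
    rw [hL, hik]
    rfl
  refine ⟨h1, fun hy => h2 ?_, fun hn => h3 ?_⟩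
  · exact yes_red B0 t h h0 inv π0 x (κ k) (ht1 _) hk (hLk.1 hy)
  · exact no_red B0 t h h0 inv π0 x (κ k) (ht1 _) hk (fun he => hn (hLk.2 he))

end Pool.Agent.Lib.Pf91712q
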