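import Pool.Agent.Lib.Pf91712q.Fin
import Pool.Agent.Lib.Pf91712q.Hard
import Pool.Agent.Lib.Pf91712q.Bar
import Pool.Agent.Lib.Pf91712.Diag

/-!
The threshold for the list gap version of the parameterized `Σ₂` problem.
-/

set_option autoImplicit false

namespace Pool.Agent.Lib.Pf91712q

open Pool.Agent.Lib.Pa76659 (Str Lang PO)
open Pool.Agent.Lib.Pf91712p (lg Alt AltProb AltClass)

theorem not_yes (t h : ℕ → ℕ) (π : ℕ → Str) (B : Lang) (x : Str) (k : ℕ) (ht : 1 ≤ t k)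
    (hn : NoInst t h π B x k) : ¬ YesInst h π B x k := by
  rintro ⟨u, hu, hv⟩
  obtain ⟨v, hv1, hv2⟩ := hn (List.replicate (t k) u) List.length_replicate (fun w hw => by
    rw [List.eq_of_mem_replicate hw]
    exact hu)
  have h1 := hv2 u (by
    rw [List.mem_replicate]
    exact ⟨by omega, rfl⟩)
  rw [hv v hv1] at h1
  simp at h1

theorem threshold (O : Lang) (h t : ℕ → ℕ) (hh : Computable h) (ht : Computable t)
    (ht1 : ∀ k, 1 ≤ t k) :
    ListGap O h t ↔ (∃ c, ∀ k, h k ≤ c * t k) ∨ LevelTwo O := by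
  constructor
  · intro hL
    by_cases hc : ∃ c, ∀ k, h k ≤ c * t k
    · exact Or.inl hc
    · right
      push Not at hc
      exact hard O h t hh ht ht1 hc hL
  · rintro (⟨c, hc⟩ | h2) π B hπ hB
    · exact main O h t π B c hh ht ht1 hc hπ hB
    · obtain ⟨F, hF, M, p, g, σ, hg, hσ, hM⟩ := h2 (YesInst h π B)
        ⟨h, π, B, hh, hπ, hB, fun x k => Iff.rfl⟩
      exact ⟨F, hF, M, p, g, σ, hg, hσ, fun x k => ⟨(hM x k).1, (hM x k).2.1,
        fun hn => (hM x k).2.2 (not_yes t h π B x k (ht1 k) hn)⟩⟩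

theorem exists_not_levelTwo : ∃ O : Lang, ¬ LevelTwo O := by
  obtain ⟨O, hO⟩ := Pool.Agent.Lib.Pf91712.diag
  exact ⟨O, fun h => barrier O hO (h _ (sigma_mem O))⟩

end Pool.Agent.Lib.Pf91712q
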